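import Pool.Agent.Lib.MP_5d9c5f_lc.Main

/-!
# Theorem A for arbitrary vertex types
-/

namespace Pool.Agent.MP_5d9c5f

open Finset

variable {V ι : Type*} [DecidableEq V] [DecidableEq ι]

omit [DecidableEq ι] in
theorem cut_eq_of_mem {W : Type*} [DecidableEq W] (S : Finset ι) {x y : ι → V} {x' y' : ι → W}
    {U : Finset V} {U' : Finset W} (hx : ∀ i, x i ∈ U ↔ x' i ∈ U')
    (hy : ∀ i, y i ∈ U ↔ y' i ∈ U') : cut S x y U = cut S x' y' U' := by
  unfold cut
  apply sum_congr rfl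
  intro i _
  have h : (x i ∈ U ∧ y i ∉ U) ↔ (x' i ∈ U' ∧ y' i ∉ U') := by rw [hx, hy]
  exact if_congr h rfl rfl

theorem Stable.orient' [Fintype ι] {A E : Finset ι} {x y : ι → V} {s₁ t₁ s₂ t₂ : V}
    (hd : Disjoint A E) (H : Stable A E x y s₁ t₁ s₂ t₂) :
    ∃ x' y' : ι → V, (∀ i, i ∉ E → x' i = x i ∧ y' i = y i) ∧ SwapOn E x y x' y' ∧
      (∀ X, s₁ ∈ X → t₁ ∉ X → 1 ≤ cut (A ∪ E) x' y' X) ∧
      (∀ Y, s₂ ∈ Y → t₂ ∉ Y → 2 ≤ cut (A ∪ E) x' y' Y) := by
  classical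
  let Ω : Finset V := {s₁, t₁, s₂, t₂} ∪ (univ.image x ∪ univ.image y)
  let W := {w : V // w ∈ Ω}
  have hx : ∀ i, x i ∈ Ω := fun i =>
    mem_union_right _ (mem_union_left _ (mem_image_of_mem _ (mem_univ _)))
  have hy : ∀ i, y i ∈ Ω := fun i =>
    mem_union_right _ (mem_union_right _ (mem_image_of_mem _ (mem_univ _)))
  let xx : ι → W := fun i => ⟨x i, hx i⟩
  let yy : ι → W := fun i => ⟨y i, hy i⟩
  let a₁ : W := ⟨s₁, by simp [Ω]⟩
  let b₁ : W := ⟨t₁, by simp [Ω]⟩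
  let a₂ : W := ⟨s₂, by simp [Ω]⟩
  let b₂ : W := ⟨t₂, by simp [Ω]⟩
  let up : Finset W → Finset V := fun X => X.map (Function.Embedding.subtype _)
  have hup : ∀ (X : Finset W) (w : W), w.1 ∈ up X ↔ w ∈ X := by
    intro X w
    exact Finset.mem_map' (Function.Embedding.subtype _)
  have hcut : ∀ (S : Finset ι) (X : Finset W), cut S x y (up X) = cut S xx yy X := fun S X =>
    cut_eq_of_mem S (fun i => hup X (xx i)) (fun i => hup X (yy i))
  have hcut' : ∀ (S : Finset ι) (X : Finset W), cut S y x (up X) = cut S yy xx X := fun S X =>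
    cut_eq_of_mem S (fun i => hup X (yy i)) (fun i => hup X (xx i))
  have hdl : ∀ (S : Finset ι) (X : Finset W), dl S x y (up X) = dl S xx yy X := fun S X => by
    unfold dl; rw [hcut, hcut']
  have HS : Stable A E xx yy a₁ b₁ a₂ b₂ := by
    refine ⟨?_, ?_, ?_⟩
    · intro X hs ht h0
      rw [← hcut] at h0
      rw [← hdl]
      exact H.P1 (up X) ((hup X a₁).2 hs) (fun h => ht ((hup X b₁).1 h)) h0
    · intro X hs ht
      rw [← hcut, ← hdl]
      exact H.F0 (up X) ((hup X a₂).2 hs) (fun h => ht ((hup X b₂).1 h))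
    · intro X hs ht h0
      rw [← hdl] at h0
      rw [← hcut, ← hdl]
      exact H.F1 (up X) ((hup X a₂).2 hs) (fun h => ht ((hup X b₂).1 h)) h0
  obtain ⟨x', y', g1, g2, g3, g4⟩ := HS.orient E.card A E xx yy rfl hd
  let dn : Finset V → Finset W := fun X => X.subtype (fun w => w ∈ Ω)
  have hdn : ∀ (X : Finset V) (w : W), w.1 ∈ X ↔ w ∈ dn X := by
    intro X w
    exact Finset.mem_subtype.symm
  refine ⟨fun i => (x' i).1, fun i => (y' i).1, ?_, ?_, ?_, ?_⟩
  · intro i hi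
    simp only [(g1 i hi).1, (g1 i hi).2, xx, yy, and_self]
  · intro i hi
    rcases g2 i hi with ⟨h1, h2⟩ | ⟨h1, h2⟩
    · left; simp only [h1, h2, xx, yy, and_self]
    · right; simp only [h1, h2, xx, yy, and_self]
  · intro X hs ht
    have := g3 (dn X) ((hdn X a₁).1 hs) (fun h => ht ((hdn X b₁).2 h))
    rw [cut_eq_of_mem (A ∪ E) (U' := dn X) (x' := x') (y' := y') (fun i => hdn X _)
      (fun i => hdn X _)]
    exact this
  · intro X hs ht
    have := g4 (dn X) ((hdn X a₂).1 hs) (fun h => ht ((hdn X b₂).2 h))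
    rw [cut_eq_of_mem (A ∪ E) (U' := dn X) (x' := x') (y' := y') (fun i => hdn X _)
      (fun i => hdn X _)]
    exact this

end Pool.Agent.MP_5d9c5f
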