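import Pool.Agent.Lib.MP_5d9c5f_lc.Reach
import Pool.Agent.Lib.MP_5d9c5f_lc.Main2

/-!
# The algorithm and its correctness, at the level of cuts
-/

namespace Pool.Agent.MP_5d9c5f

/-- An item of a mixed graph: a pair of vertices, and a flag telling whether it is undirected. -/
abbrev Item := (Vtx × Vtx) × Bool

/-- The four terminals `((s₁, t₁), (s₂, t₂))`. -/
abbrev Tm := (Vtx × Vtx) × (Vtx × Vtx)

/-- All usable arcs of a mixed graph. -/
def arcsOf (L : List Item) : List (Vtx × Vtx) :=
  L.flatMap (fun a => if a.2 then [a.1, (a.1.2, a.1.1)] else [a.1])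

/-- Whether there are two edge-disjoint mixed paths from `s` to `t`. -/
def two (L : List Item) (s t : Vtx) : Bool :=
  reach (arcsOf L) s t &&
    (List.range L.length).all (fun i => reach (arcsOf (L.take i ++ L.drop (i + 1))) s t)

/-- The relaxation. -/
def relax (q : Tm) (L : List Item) : Bool :=
  reach (arcsOf L) q.1.1 q.1.2 && two L q.2.1 q.2.2

/-- Orient an item. -/
def turn (r : Bool) (a : Item) : Item :=
  if a.2 then (if r then (a.1, false) else ((a.1.2, a.1.1), false)) else a

/-- Orient the item in position `i`. -/
def orientAt (L : List Item) (i : ℕ) (r : Bool) : List Item :=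
  L.take i ++ (((L.drop i).take 1).map (turn r) ++ L.drop (i + 1))

/-- Orient the item in position `i` if one direction is impossible. -/
def prop1 (q : Tm) (L : List Item) (i : ℕ) : List Item :=
  if relax q (orientAt L i true) then
    (if relax q (orientAt L i false) then L else orientAt L i true)
  else orientAt L i false

/-- One pass over all positions. -/
def pass (q : Tm) (L : List Item) : List Item :=
  (List.range L.length).foldl (prop1 q) L

/-- All consequences. -/
def closure (q : Tm) (L : List Item) : List Item :=
  L.foldl (fun M _ => pass q M) L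

/-- The decision procedure. -/
def dec (q : Tm) (L : List Item) : Bool := relax q (closure q L)

/-- Fix the direction of one item. -/
def fixStep (q : Tm) (L : List Item) (i : ℕ) : List Item :=
  if dec q (orientAt L i true) then orientAt L i true else orientAt L i false

/-- Fix all directions. -/
def fixAll (q : Tm) (L : List Item) : List Item :=
  (List.range L.length).foldl (fixStep q) L

/-- The list of items of an input. -/
def items (I : MixedInput) : List Item :=
  I.arcs.map (fun a => (a, false)) ++ I.edges.map (fun a => (a, true))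

/-- The terminals of an input. -/
def terms (I : MixedInput) : Tm := ((I.s₁, I.t₁), (I.s₂, I.t₂))

/-- The decision algorithm. -/
def decide' (I : MixedInput) : Bool := dec (terms I) (items I)

/-- The search algorithm. -/
def solve (I : MixedInput) : Option (List (Vtx × Vtx)) :=
  if dec (terms I) (items I) then
    some (((fixAll (terms I) (items I)).drop I.arcs.length).map (fun a => a.1))
  else none

/-! ### Counting -/

/-- Contribution of an item to the cut of `U`. -/
def out (U : Finset Vtx) (a : Item) : ℤ :=
  if (a.1.1 ∈ U ∧ a.1.2 ∉ U) ∨ (a.2 = true ∧ a.1.2 ∈ U ∧ a.1.1 ∉ U) then 1 else 0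

/-- The cut function of a mixed graph. -/
def ct (L : List Item) (U : Finset Vtx) : ℤ := (L.map (out U)).sum

theorem out_nonneg (U : Finset Vtx) (a : Item) : 0 ≤ out U a := by
  unfold out; split_ifs <;> norm_num

theorem out_le_one (U : Finset Vtx) (a : Item) : out U a ≤ 1 := by
  unfold out; split_ifs <;> norm_num

theorem ct_append (L M : List Item) (U : Finset Vtx) : ct (L ++ M) U = ct L U + ct M U := by
  simp [ct]

theorem ct_cons (a : Item) (M : List Item) (U : Finset Vtx) :
    ct (a :: M) U = out U a + ct M U := by
  simp [ct]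

theorem ct_nonneg (L : List Item) (U : Finset Vtx) : 0 ≤ ct L U := by
  induction L with
  | nil => simp [ct]
  | cons a L ih =>
    rw [ct_cons]
    have := out_nonneg U a
    omega

theorem ct_pos_iff (L : List Item) (U : Finset Vtx) :
    1 ≤ ct L U ↔ ∃ a ∈ L, out U a = 1 := by
  induction L with
  | nil => simp [ct]
  | cons a L ih =>
    rw [ct_cons]
    have h1 := out_nonneg U a
    have h2 := out_le_one U a
    have h3 := ct_nonneg L U
    constructor
    · intro h
      by_cases h4 : out U a = 1
      · exact ⟨a, by simp, h4⟩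
      · obtain ⟨b, hb, hb1⟩ := ih.1 (by omega)
        exact ⟨b, List.mem_cons_of_mem _ hb, hb1⟩
    · rintro ⟨b, hb, hb1⟩
      rcases List.mem_cons.1 hb with rfl | hb
      · omega
      · have := ih.2 ⟨b, hb, hb1⟩
        omega

theorem exists_arc_iff (L : List Item) (U : Finset Vtx) :
    (∃ a ∈ arcsOf L, a.1 ∈ U ∧ a.2 ∉ U) ↔ 1 ≤ ct L U := by
  rw [ct_pos_iff]
  constructor
  · rintro ⟨a, ha, h1, h2⟩
    unfold arcsOf at ha
    rw [List.mem_flatMap] at ha
    obtain ⟨b, hb, hab⟩ := ha
    refine ⟨b, hb, ?_⟩
    unfold out
    split_ifs at hab with hf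
    · simp only [List.mem_cons, List.not_mem_nil, or_false] at hab
      rcases hab with rfl | rfl
      · rw [if_pos (Or.inl ⟨h1, h2⟩)]
      · rw [if_pos (Or.inr ⟨hf, h1, h2⟩)]
    · simp only [List.mem_singleton] at hab
      subst hab
      rw [if_pos (Or.inl ⟨h1, h2⟩)]
  · rintro ⟨a, ha, h⟩
    have hc : (a.1.1 ∈ U ∧ a.1.2 ∉ U) ∨ (a.2 = true ∧ a.1.2 ∈ U ∧ a.1.1 ∉ U) := by
      by_contra hc
      unfold out at h
      rw [if_neg hc] at h
      exact absurd h (by norm_num)
    unfold arcsOf
    rcases hc with hc | hc
    · refine ⟨a.1, ?_, hc⟩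
      rw [List.mem_flatMap]
      refine ⟨a, ha, ?_⟩
      split_ifs <;> simp
    · refine ⟨(a.1.2, a.1.1), ?_, hc.2⟩
      rw [List.mem_flatMap]
      refine ⟨a, ha, ?_⟩
      rw [if_pos hc.1]
      simp

theorem reach_iff_ct (L : List Item) (s t : Vtx) :
    reach (arcsOf L) s t = true ↔ ∀ U : Finset Vtx, s ∈ U → t ∉ U → 1 ≤ ct L U := by
  rw [reach_iff]
  constructor
  · intro h U hs ht
    exact (exists_arc_iff L U).1 (h U hs ht)
  · intro h U hs ht
    exact (exists_arc_iff L U).2 (h U hs ht)

theorem split_at (L : List Item) {i : ℕ} (hi : i < L.length) :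
    L = L.take i ++ (L[i] :: L.drop (i + 1)) := by
  rw [List.getElem_cons_drop, List.take_append_drop]

theorem ct_split (L : List Item) {i : ℕ} (hi : i < L.length) (U : Finset Vtx) :
    ct L U = ct (L.take i ++ L.drop (i + 1)) U + out U L[i] := by
  conv_lhs => rw [split_at L hi]
  rw [ct_append, ct_cons, ct_append]
  ring

theorem two_iff_ct (L : List Item) (s t : Vtx) :
    two L s t = true ↔ ∀ U : Finset Vtx, s ∈ U → t ∉ U → 2 ≤ ct L U := by
  unfold two
  rw [Bool.and_eq_true, List.all_eq_true]
  constructor
  · rintro ⟨h1, h2⟩ U hs ht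
    have h3 := (reach_iff_ct L s t).1 h1 U hs ht
    obtain ⟨a, ha, ha1⟩ := (ct_pos_iff L U).1 h3
    obtain ⟨i, hi, rfl⟩ := List.getElem_of_mem ha
    have h4 := h2 i (List.mem_range.2 hi)
    have h5 := (reach_iff_ct _ s t).1 h4 U hs ht
    have h6 := ct_split L hi U
    omega
  · intro h
    constructor
    · rw [reach_iff_ct]
      intro U hs ht
      have := h U hs ht
      omega
    · intro i hi
      rw [List.mem_range] at hi
      rw [reach_iff_ct]
      intro U hs ht
      have h1 := h U hs ht
      have h2 := ct_split L hi U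
      have h3 := out_le_one U L[i]
      omega

/-- The relaxation as a property of cuts. -/
def RelaxP (q : Tm) (L : List Item) : Prop :=
  (∀ U : Finset Vtx, q.1.1 ∈ U → q.1.2 ∉ U → 1 ≤ ct L U) ∧
  (∀ U : Finset Vtx, q.2.1 ∈ U → q.2.2 ∉ U → 2 ≤ ct L U)

theorem relax_iff (q : Tm) (L : List Item) : relax q L = true ↔ RelaxP q L := by
  unfold relax RelaxP
  rw [Bool.and_eq_true, reach_iff_ct, two_iff_ct]

/-! ### Orientations of items -/

theorem turn_of_false {a : Item} (h : a.2 = false) (r : Bool) : turn r a = a := by
  simp [turn, h]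

theorem turn_flag (a : Item) (r : Bool) : (turn r a).2 = false := by
  unfold turn
  split_ifs with h1 h2
  · rfl
  · rfl
  · simpa using h1

theorem turn_turn (a : Item) (r r' : Bool) : turn r' (turn r a) = turn r a :=
  turn_of_false (turn_flag a r) r'

theorem out_turn_le (U : Finset Vtx) (a : Item) (r : Bool) : out U (turn r a) ≤ out U a := by
  unfold turn
  split_ifs with h1 h2
  · unfold out
    simp only [Bool.false_eq_true, false_and, or_false, h1, true_and]
    by_cases h3 : a.1.1 ∈ U <;> by_cases h4 : a.1.2 ∈ U <;> simp [h3, h4]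
  · unfold out
    simp only [Bool.false_eq_true, false_and, or_false, h1, true_and]
    by_cases h3 : a.1.1 ∈ U <;> by_cases h4 : a.1.2 ∈ U <;> simp [h3, h4]
  · exact le_rfl

theorem orientAt_eq_modify (L : List Item) (i : ℕ) (r : Bool) :
    orientAt L i r = L.modify i (turn r) := by
  unfold orientAt
  by_cases hi : i < L.length
  · rw [List.modify_eq_take_cons_drop hi]
    rw [List.drop_eq_getElem_cons hi, List.take_succ_cons, List.take_zero, List.map_cons,
      List.map_nil, List.cons_append, List.nil_append]
  · rw [List.drop_of_length_le (by omega), List.drop_of_length_le (by omega),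
      List.take_of_length_le (by omega)]
    rw [List.modify_eq_self (by omega)]
    simp

theorem orientAt_length (L : List Item) (i : ℕ) (r : Bool) :
    (orientAt L i r).length = L.length := by
  rw [orientAt_eq_modify, List.length_modify]

theorem orientAt_getElem (L : List Item) (i : ℕ) (r : Bool) (j : ℕ)
    (hj : j < (orientAt L i r).length) :
    (orientAt L i r)[j] = if i = j then turn r (L[j]'(by rwa [orientAt_length] at hj)) else
      L[j]'(by rwa [orientAt_length] at hj) := by
  simp only [orientAt_eq_modify, List.getElem_modify]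

/-- `L'` is a complete orientation of `L`. -/
def FO (L L' : List Item) : Prop := List.Forall₂ (fun a b => ∃ r, b = turn r a) L L'

theorem FO_iff (L L' : List Item) : FO L L' ↔ ∃ h : L'.length = L.length,
    ∀ i (hi : i < L.length), ∃ r, L'[i] = turn r L[i] := by
  unfold FO
  rw [List.forall₂_iff_get]
  constructor
  · rintro ⟨h1, h2⟩
    exact ⟨h1.symm, fun i hi => h2 i hi (by omega)⟩
  · rintro ⟨h1, h2⟩
    exact ⟨h1.symm, fun i hi _ => h2 i hi⟩

theorem FO.ct_le {L L' : List Item} (h : FO L L') (U : Finset Vtx) : ct L' U ≤ ct L U := by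
  induction h with
  | nil => exact le_rfl
  | cons hab _ ih =>
    obtain ⟨r, rfl⟩ := hab
    rw [ct_cons, ct_cons]
    exact add_le_add (out_turn_le U _ r) ih

theorem FO.relaxP {q : Tm} {L L' : List Item} (h : FO L L') (h' : RelaxP q L') : RelaxP q L :=
  ⟨fun U hs ht => (h'.1 U hs ht).trans (h.ct_le U),
    fun U hs ht => (h'.2 U hs ht).trans (h.ct_le U)⟩

theorem FO.of_orientAt {L L' : List Item} {i : ℕ} {r : Bool} (h : FO (orientAt L i r) L') :
    FO L L' := by
  rw [FO_iff] at h ⊢
  obtain ⟨h1, h2⟩ := h
  rw [orientAt_length] at h1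
  refine ⟨h1, ?_⟩
  intro j hj
  obtain ⟨r', hr'⟩ := h2 j (by rw [orientAt_length]; exact hj)
  rw [orientAt_getElem] at hr'
  split_ifs at hr' with hij
  · rw [turn_turn] at hr'
    exact ⟨r, hr'⟩
  · exact ⟨r', hr'⟩

theorem FO.exists_orientAt {L L' : List Item} (h : FO L L') (i : ℕ) :
    ∃ r, FO (orientAt L i r) L' := by
  rw [FO_iff] at h
  obtain ⟨h1, h2⟩ := h
  by_cases hi : i < L.length
  · obtain ⟨r, hr⟩ := h2 i hi
    refine ⟨r, ?_⟩
    rw [FO_iff]
    refine ⟨by rw [orientAt_length]; exact h1, ?_⟩
    intro j hj
    rw [orientAt_length] at hj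
    obtain ⟨r', hr'⟩ := h2 j hj
    rw [orientAt_getElem]
    by_cases hij : i = j
    · subst hij
      rw [if_pos rfl]
      exact ⟨r, by rw [turn_turn, hr]⟩
    · rw [if_neg hij]
      exact ⟨r', hr'⟩
  · refine ⟨true, ?_⟩
    rw [orientAt_eq_modify, List.modify_eq_self (by omega)]
    rw [FO_iff]
    exact ⟨h1, h2⟩

/-- Existence of a good orientation. -/
def Good (q : Tm) (L : List Item) : Prop := ∃ L', FO L L' ∧ RelaxP q L'

theorem Good.relaxP {q : Tm} {L : List Item} (h : Good q L) : RelaxP q L := by
  obtain ⟨L', h1, h2⟩ := h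
  exact h1.relaxP h2

theorem good_iff_exists (q : Tm) (L : List Item) (i : ℕ) :
    Good q L ↔ ∃ r, Good q (orientAt L i r) := by
  constructor
  · rintro ⟨L', h1, h2⟩
    obtain ⟨r, hr⟩ := h1.exists_orientAt i
    exact ⟨r, L', hr, h2⟩
  · rintro ⟨r, L', h1, h2⟩
    exact ⟨L', h1.of_orientAt, h2⟩

theorem good_prop1 (q : Tm) (L : List Item) (i : ℕ) : Good q (prop1 q L i) ↔ Good q L := by
  unfold prop1
  split_ifs with h1 h2
  · rfl
  · rw [good_iff_exists q L i]
    constructor
    · intro h; exact ⟨true, h⟩
    · rintro ⟨r, h⟩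
      cases r with
      | true => exact h
      | false => exact absurd ((relax_iff _ _).2 h.relaxP) h2
  · rw [good_iff_exists q L i]
    constructor
    · intro h; exact ⟨false, h⟩
    · rintro ⟨r, h⟩
      cases r with
      | false => exact h
      | true => exact absurd ((relax_iff _ _).2 h.relaxP) h1

theorem good_foldl (q : Tm) (l : List ℕ) : ∀ L, Good q (l.foldl (prop1 q) L) ↔ Good q L := by
  induction l with
  | nil => intro L; rfl
  | cons i l ih =>
    intro L
    rw [List.foldl_cons, ih, good_prop1]

theorem good_pass (q : Tm) (L : List Item) : Good q (pass q L) ↔ Good q L :=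
  good_foldl q _ L

theorem closure_eq (q : Tm) (L : List Item) : closure q L = (pass q)^[L.length] L := by
  unfold closure
  rw [List.foldl_const]

theorem good_iterate (q : Tm) (k : ℕ) : ∀ L, Good q ((pass q)^[k] L) ↔ Good q L := by
  induction k with
  | zero => intro L; rfl
  | succ k ih =>
    intro L
    rw [Function.iterate_succ_apply, ih, good_pass]

theorem good_closure (q : Tm) (L : List Item) : Good q (closure q L) ↔ Good q L := by
  rw [closure_eq, good_iterate]

/-! ### The closure is a fixed point -/

/-- The number of undirected items. -/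
def und (L : List Item) : ℕ := L.countP (fun a => a.2)

theorem orientAt_eq_or (L : List Item) (i : ℕ) (r : Bool) :
    orientAt L i r = L ∨ und (orientAt L i r) < und L := by
  by_cases hi : i < L.length
  · by_cases hf : L[i].2 = true
    · right
      unfold und
      conv_rhs => rw [split_at L hi]
      rw [orientAt_eq_modify, List.modify_eq_take_cons_drop hi]
      rw [List.countP_append, List.countP_append, List.countP_cons, List.countP_cons]
      rw [turn_flag, hf]
      simp
    · left
      rw [orientAt_eq_modify, List.modify_eq_take_cons_drop hi]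
      rw [turn_of_false (by simpa using hf)]
      exact (split_at L hi).symm
  · left
    rw [orientAt_eq_modify, List.modify_eq_self (by omega)]

theorem und_orientAt_le (L : List Item) (i : ℕ) (r : Bool) :
    und (orientAt L i r) ≤ und L := by
  rcases orientAt_eq_or L i r with h | h
  · rw [h]
  · exact h.le

theorem prop1_eq_or (q : Tm) (L : List Item) (i : ℕ) :
    prop1 q L i = L ∨ und (prop1 q L i) < und L := by
  unfold prop1
  split_ifs with h1 h2
  · exact Or.inl rfl
  · exact orientAt_eq_or L i true
  · exact orientAt_eq_or L i false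

theorem foldl_eq_or (q : Tm) (l : List ℕ) : ∀ L,
    ((∀ i ∈ l, prop1 q L i = L) ∧ l.foldl (prop1 q) L = L) ∨
      und (l.foldl (prop1 q) L) < und L := by
  induction l with
  | nil => intro L; left; simp
  | cons i l ih =>
    intro L
    rw [List.foldl_cons]
    rcases prop1_eq_or q L i with h | h
    · rw [h]
      rcases ih L with ⟨h1, h2⟩ | h1
      · left
        refine ⟨?_, h2⟩
        intro j hj
        rcases List.mem_cons.1 hj with rfl | hj
        · exact h
        · exact h1 j hj
      · right; exact h1
    · right
      rcases ih (prop1 q L i) with ⟨h1, h2⟩ | h1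
      · rw [h2]; exact h
      · exact h1.trans h

/-- No further consequences. -/
def Fix (q : Tm) (L : List Item) : Prop := ∀ i < L.length, prop1 q L i = L

theorem pass_eq_or (q : Tm) (L : List Item) :
    (Fix q L ∧ pass q L = L) ∨ und (pass q L) < und L := by
  rcases foldl_eq_or q (List.range L.length) L with ⟨h1, h2⟩ | h
  · left
    exact ⟨fun i hi => h1 i (List.mem_range.2 hi), h2⟩
  · right; exact h

theorem fix_iterate (q : Tm) (k : ℕ) : ∀ L, und L ≤ k → Fix q ((pass q)^[k] L) := by
  induction k with
  | zero =>
    intro L hL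
    rcases pass_eq_or q L with h | h
    · exact h.1
    · omega
  | succ k ih =>
    intro L hL
    rcases pass_eq_or q L with h | h
    · have hit : ∀ m, (pass q)^[m] L = L := by
        intro m
        induction m with
        | zero => rfl
        | succ m ihm => rw [Function.iterate_succ_apply, h.2, ihm]
      rw [hit]
      exact h.1
    · rw [Function.iterate_succ_apply]
      exact ih _ (by omega)

theorem fix_closure (q : Tm) (L : List Item) : Fix q (closure q L) := by
  rw [closure_eq]
  exact fix_iterate q _ L List.countP_le_length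

theorem Fix.relax {q : Tm} {L : List Item} (h : Fix q L) {i : ℕ} (hi : i < L.length)
    (hf : L[i].2 = true) (r : Bool) : RelaxP q (orientAt L i r) := by
  have hne : ∀ r, orientAt L i r ≠ L := by
    intro r heq
    have h1 : (orientAt L i r)[i]'(by rw [orientAt_length]; exact hi) = L[i] := by
      simp only [heq]
    rw [orientAt_getElem, if_pos rfl] at h1
    have h2 := turn_flag L[i] r
    rw [h1, hf] at h2
    exact absurd h2 (by simp)
  have h1 := h i hi
  unfold prop1 at h1
  split_ifs at h1 with h2 h3
  · cases r with
    | true => exact (relax_iff _ _).1 h2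
    | false => exact (relax_iff _ _).1 h3
  · exact absurd h1 (hne true)
  · exact absurd h1 (hne false)

end Pool.Agent.MP_5d9c5f
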