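import Pool.Agent.Lib.MP_5d9c5f_lc.Cut

/-!
# The critical case

Every undirected edge is critical in both directions.
-/

namespace Pool.Agent.MP_5d9c5f

open Finset

variable {V ι : Type*} [DecidableEq V] [DecidableEq ι]

/-- The critical situation: arcs `A`, edges `E`, with a preferred direction `u → v` of the
edges. -/
structure Crit (A E : Finset ι) (u v : ι → V) (s₁ t₁ s₂ t₂ : V) : Prop where
  H1 : ∀ X, s₁ ∈ X → t₁ ∉ X → cut A u v X = 0 → 2 ≤ cut E u v X + cut E v u X
  H2 : ∀ Y, s₂ ∈ Y → t₂ ∉ Y → 2 ≤ cut A u v Y + cut E u v Y + cut E v u Y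
  H2' : ∀ Y, s₂ ∈ Y → t₂ ∉ Y → cut E u v Y + cut E v u Y ≠ 0 →
    3 ≤ cut A u v Y + cut E u v Y + cut E v u Y
  H3 : ∀ e ∈ E, ∃ X, s₁ ∈ X ∧ t₁ ∉ X ∧ cut A u v X = 0 ∧ cut E u v X + cut E v u X = 2 ∧
    u e ∈ X ∧ v e ∉ X
  H4 : ∀ e ∈ E, ∃ Y, s₂ ∈ Y ∧ t₂ ∉ Y ∧ cut A u v Y + cut E u v Y + cut E v u Y = 3 ∧
    2 ≤ cut E u v Y + cut E v u Y ∧ v e ∈ Y ∧ u e ∉ Y
  H3' : ∀ X, s₁ ∈ X → t₁ ∉ X → cut A u v X = 0 → cut E u v X + cut E v u X = 2 →
    cut E v u X = 0
  H4' : ∀ Y, s₂ ∈ Y → t₂ ∉ Y → cut A u v Y + cut E u v Y + cut E v u Y = 3 →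
    2 ≤ cut E u v Y + cut E v u Y → cut E u v Y = 0

section
variable {A E : Finset ι} {u v : ι → V} {s₁ t₁ s₂ t₂ : V}

/-- Indicator of membership. -/
def ind (x : V) (U : Finset V) : ℤ := if x ∈ U then 1 else 0

theorem ind_of_mem {x : V} {U : Finset V} (h : x ∈ U) : ind x U = 1 := by simp [ind, h]
theorem ind_of_not_mem {x : V} {U : Finset V} (h : x ∉ U) : ind x U = 0 := by simp [ind, h]
theorem ind_nonneg (x : V) (U : Finset V) : 0 ≤ ind x U := by
  unfold ind; split_ifs <;> norm_num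
theorem ind_le_one (x : V) (U : Finset V) : ind x U ≤ 1 := by
  unfold ind; split_ifs <;> norm_num

theorem ind_inter_right {x : V} {U W : Finset V} (h : x ∈ W) : ind x (U ∩ W) = ind x U := by
  simp [ind, h]
theorem ind_union_right {x : V} {U W : Finset V} (h : x ∉ W) : ind x (U ∪ W) = ind x U := by
  simp [ind, h]
theorem ind_inter_left {x : V} {U W : Finset V} (h : x ∈ U) : ind x (U ∩ W) = ind x W := by
  simp [ind, h]
theorem ind_union_left {x : V} {U W : Finset V} (h : x ∉ U) : ind x (U ∪ W) = ind x W := by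
  simp [ind, h]

theorem Crit.g_aux (H : Crit A E u v s₁ t₁ s₂ t₂) : ∀ (n : ℕ) (U : Finset V),
    cut E v u U ≤ n → cut A u v U = 0 → 2 * (ind s₁ U - ind t₁ U) ≤ mu E u v U := by
  intro n
  induction n with
  | zero =>
    intro U hi hd
    have hi0 := cut_nonneg E v u U
    have ho0 := cut_nonneg E u v U
    unfold mu
    by_cases hs : s₁ ∈ U
    · by_cases ht : t₁ ∈ U
      · rw [ind_of_mem hs, ind_of_mem ht]
        push_cast at hi
        omega
      · have := H.H1 U hs ht hd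
        rw [ind_of_mem hs, ind_of_not_mem ht]
        push_cast at hi
        omega
    · have := ind_nonneg t₁ U
      rw [ind_of_not_mem hs]
      push_cast at hi
      omega
  | succ n ih =>
    intro U hi hd
    by_cases h0 : cut E v u U = 0
    · exact ih U (by omega) hd
    · have hi0 := cut_nonneg E v u U
      have hpos : 0 < cut E v u U := by omega
      obtain ⟨e, he, hv, hu⟩ := (cut_pos_iff E v u U).1 hpos
      obtain ⟨X, hs, ht, hdX, hX2, huX, hvX⟩ := H.H3 e he
      have hiX := H.H3' X hs ht hdX hX2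
      have hsub := cut_submod A u v U X
      have hsi := cut_submod_strict E v u U X ⟨e, he, hv, hvX, huX, hu⟩
      have n1 := cut_nonneg A u v (U ∩ X)
      have n2 := cut_nonneg A u v (U ∪ X)
      have n3 := cut_nonneg E v u (U ∩ X)
      have n4 := cut_nonneg E v u (U ∪ X)
      have i1 := ih (U ∩ X) (by push_cast at hi; omega) (by omega)
      have i2 := ih (U ∪ X) (by push_cast at hi; omega) (by omega)
      have hm := mu_modular E u v U X
      have hmX : mu E u v X = 2 := by unfold mu; omega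
      rw [ind_inter_right hs, ind_of_not_mem (x := t₁) (U := U ∩ X) (by simp [ht])] at i1
      rw [ind_union_right ht, ind_of_mem (x := s₁) (U := U ∪ X) (by simp [hs])] at i2
      omega

theorem Crit.g (H : Crit A E u v s₁ t₁ s₂ t₂) (U : Finset V) (hd : cut A u v U = 0) :
    2 * (ind s₁ U - ind t₁ U) ≤ mu E u v U :=
  H.g_aux (cut E v u U).toNat U (by
    have := cut_nonneg E v u U
    omega) hd

theorem Crit.F_aux (H : Crit A E u v s₁ t₁ s₂ t₂) : ∀ (n : ℕ) (U : Finset V),
    cut E u v U ≤ n → 4 * (ind s₂ U - ind t₂ U) + mu E u v U ≤ 2 * cut A u v U := by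
  intro n
  induction n with
  | zero =>
    intro U ho
    have hi0 := cut_nonneg E v u U
    have ho0 := cut_nonneg E u v U
    have hd0 := cut_nonneg A u v U
    have hg := H.g U
    unfold mu at hg ⊢
    push_cast at ho
    by_cases hs : s₂ ∈ U
    · by_cases ht : t₂ ∈ U
      · rw [ind_of_mem hs, ind_of_mem ht]
        omega
      · have h2 := H.H2 U hs ht
        have h2' := H.H2' U hs ht
        rw [ind_of_mem hs, ind_of_not_mem ht]
        have b1 := ind_nonneg s₁ U
        have b2 := ind_le_one t₁ U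
        by_cases hd : cut A u v U = 0
        · have := hg hd
          omega
        · omega
    · have := ind_nonneg t₂ U
      rw [ind_of_not_mem hs]
      omega
  | succ n ih =>
    intro U ho
    by_cases h0 : cut E u v U = 0
    · exact ih U (by omega)
    · have ho0 := cut_nonneg E u v U
      have hpos : 0 < cut E u v U := by omega
      obtain ⟨e, he, hu, hv⟩ := (cut_pos_iff E u v U).1 hpos
      obtain ⟨Y, hs, ht, hY3, hY2, hvY, huY⟩ := H.H4 e he
      have hoY := H.H4' Y hs ht hY3 hY2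
      have hsub := cut_submod A u v U Y
      have hso := cut_submod_strict E u v U Y ⟨e, he, hu, huY, hvY, hv⟩
      have n3 := cut_nonneg E u v (U ∩ Y)
      have n4 := cut_nonneg E u v (U ∪ Y)
      have n5 := cut_nonneg A u v Y
      have i1 := ih (U ∩ Y) (by push_cast at ho; omega)
      have i2 := ih (U ∪ Y) (by push_cast at ho; omega)
      have hm := mu_modular E u v U Y
      have hg := H.g Y
      have b1 := ind_nonneg s₁ Y
      have b2 := ind_le_one t₁ Y
      have hd1 : cut A u v Y = 1 := by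
        by_cases hd : cut A u v Y = 0
        · have := hg hd
          unfold mu at this
          omega
        · omega
      have hmY : mu E u v Y = -2 := by unfold mu; omega
      rw [ind_inter_right hs, ind_of_not_mem (x := t₂) (U := U ∩ Y) (by simp [ht])] at i1
      rw [ind_union_right ht, ind_of_mem (x := s₂) (U := U ∪ Y) (by simp [hs])] at i2
      omega

theorem Crit.F (H : Crit A E u v s₁ t₁ s₂ t₂) (U : Finset V) :
    4 * (ind s₂ U - ind t₂ U) + mu E u v U ≤ 2 * cut A u v U :=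
  H.F_aux (cut E u v U).toNat U (by
    have := cut_nonneg E u v U
    omega)

variable (A E u v s₁ t₁ s₂ t₂) in
/-- Tight sets for the path. -/
def XX (X : Finset V) : Prop :=
  s₁ ∈ X ∧ t₁ ∉ X ∧ cut A u v X = 0 ∧ cut E v u X = 0 ∧ cut E u v X = 2

variable (A E u v s₁ t₁ s₂ t₂) in
/-- Tight sets for the flow. -/
def YY (Y : Finset V) : Prop :=
  s₂ ∈ Y ∧ t₂ ∉ Y ∧ cut A u v Y = 1 ∧ cut E u v Y = 0 ∧ cut E v u Y = 2

omit [DecidableEq ι] in
theorem Crit.XX_uncross (H : Crit A E u v s₁ t₁ s₂ t₂) {X W : Finset V}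
    (hX : XX A E u v s₁ t₁ X) (hW : XX A E u v s₁ t₁ W) :
    XX A E u v s₁ t₁ (X ∩ W) ∧ XX A E u v s₁ t₁ (X ∪ W) := by
  obtain ⟨a1, a2, a3, a4, a5⟩ := hX
  obtain ⟨b1, b2, b3, b4, b5⟩ := hW
  have s1 := cut_submod A u v X W
  have s2 := cut_submod E u v X W
  have s3 := cut_submod E v u X W
  have n1 := cut_nonneg A u v (X ∩ W)
  have n2 := cut_nonneg A u v (X ∪ W)
  have n3 := cut_nonneg E v u (X ∩ W)
  have n4 := cut_nonneg E v u (X ∪ W)
  have h1 := H.H1 (X ∩ W) (by simp [a1, b1]) (by simp [a2]) (by omega)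
  have h2 := H.H1 (X ∪ W) (by simp [a1]) (by simp [a2, b2]) (by omega)
  refine ⟨⟨by simp [a1, b1], by simp [a2], by omega, by omega, by omega⟩,
    ⟨by simp [a1], by simp [a2, b2], by omega, by omega, by omega⟩⟩

theorem Crit.YY_uncross (H : Crit A E u v s₁ t₁ s₂ t₂) {X W : Finset V}
    (hX : YY A E u v s₂ t₂ X) (hW : YY A E u v s₂ t₂ W) :
    YY A E u v s₂ t₂ (X ∩ W) ∧ YY A E u v s₂ t₂ (X ∪ W) := by
  obtain ⟨a1, a2, a3, a4, a5⟩ := hX
  obtain ⟨b1, b2, b3, b4, b5⟩ := hW
  have s1 := cut_submod A u v X W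
  have s2 := cut_submod E u v X W
  have s3 := cut_submod E v u X W
  have n1 := cut_nonneg A u v (X ∩ W)
  have n2 := cut_nonneg A u v (X ∪ W)
  have n3 := cut_nonneg E u v (X ∩ W)
  have n4 := cut_nonneg E u v (X ∪ W)
  have f1 := H.F (X ∩ W)
  have f2 := H.F (X ∪ W)
  have g1 := H.g (X ∩ W)
  have g2 := H.g (X ∪ W)
  have m1 : s₂ ∈ X ∩ W := by simp [a1, b1]
  have m2 : t₂ ∉ X ∩ W := by simp [a2]
  have m3 : s₂ ∈ X ∪ W := by simp [a1]
  have m4 : t₂ ∉ X ∪ W := by simp [a2, b2]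
  rw [ind_of_mem m1, ind_of_not_mem m2] at f1
  rw [ind_of_mem m3, ind_of_not_mem m4] at f2
  have p1 := ind_nonneg s₁ (X ∩ W)
  have p2 := ind_nonneg s₁ (X ∪ W)
  have p3 := ind_le_one t₁ (X ∩ W)
  have p4 := ind_le_one t₁ (X ∪ W)
  unfold mu at f1 f2 g1 g2
  have e1 : cut A u v (X ∩ W) ≠ 0 := by
    intro h
    have := g1 h
    omega
  have e2 : cut A u v (X ∪ W) ≠ 0 := by
    intro h
    have := g2 h
    omega
  refine ⟨⟨m1, m2, by omega, by omega, by omega⟩, ⟨m3, m4, by omega, by omega, by omega⟩⟩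

theorem Crit.mu_inter (H : Crit A E u v s₁ t₁ s₂ t₂) {X Y : Finset V}
    (hX : XX A E u v s₁ t₁ X) (hY : YY A E u v s₂ t₂ Y) : mu E u v (X ∩ Y) = 0 := by
  obtain ⟨a1, a2, a3, a4, a5⟩ := hX
  obtain ⟨b1, b2, b3, b4, b5⟩ := hY
  have s1 := cut_submod A u v X Y
  have n1 := cut_nonneg A u v (X ∩ Y)
  have n2 := cut_nonneg A u v (X ∪ Y)
  have hm := mu_modular E u v X Y
  have hmX : mu E u v X = 2 := by unfold mu; omega
  have hmY : mu E u v Y = -2 := by unfold mu; omega
  have f1 := H.F (X ∩ Y)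
  have f2 := H.F (X ∪ Y)
  have g1 := H.g (X ∩ Y)
  have g2 := H.g (X ∪ Y)
  rw [ind_inter_left a1, ind_of_not_mem (x := t₁) (U := X ∩ Y) (by simp [a2])] at g1
  rw [ind_of_mem (x := s₁) (U := X ∪ Y) (by simp [a1]), ind_union_left a2] at g2
  rw [ind_inter_right b1, ind_of_not_mem (x := t₂) (U := X ∩ Y) (by simp [b2])] at f1
  rw [ind_of_mem (x := s₂) (U := X ∪ Y) (by simp [b1]), ind_union_right b2] at f2
  have p1 := ind_nonneg s₁ Y
  have p2 := ind_le_one t₁ Y
  have p3 := ind_nonneg s₂ X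
  have p4 := ind_le_one t₂ X
  by_cases h : cut A u v (X ∩ Y) = 0
  · have := g1 h
    omega
  · have h' : cut A u v (X ∪ Y) = 0 := by omega
    have := g2 h'
    omega

end

section
variable [Fintype V]

theorem exists_least (P : Finset V → Prop) (htop : P univ)
    (hinf : ∀ A B, P A → P B → P (A ∩ B)) (w : V) :
    ∃ A, P A ∧ w ∈ A ∧ ∀ T, P T → w ∈ T → A ⊆ T := by
  classical
  obtain ⟨A, hA, hmin⟩ := Finset.exists_min_image
    (univ.filter (fun T : Finset V => P T ∧ w ∈ T)) (fun T => T.card)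
    ⟨univ, by simp [htop]⟩
  rw [mem_filter] at hA
  refine ⟨A, hA.2.1, hA.2.2, ?_⟩
  intro T hT hw
  have h := hmin (A ∩ T) (by simp [hinf A T hA.2.1 hT, hA.2.2, hw])
  have h2 : A ∩ T = A := Finset.eq_of_subset_of_card_le inter_subset_left h
  rw [← h2]
  exact inter_subset_right

theorem exists_greatest (P : Finset V → Prop) (hbot : P ∅)
    (hsup : ∀ A B, P A → P B → P (A ∪ B)) (w : V) :
    ∃ A, P A ∧ w ∉ A ∧ ∀ T, P T → w ∉ T → T ⊆ A := by
  classical
  obtain ⟨A, hA, hmax⟩ := Finset.exists_max_image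
    (univ.filter (fun T : Finset V => P T ∧ w ∉ T)) (fun T => T.card)
    ⟨∅, by simp [hbot]⟩
  rw [mem_filter] at hA
  refine ⟨A, hA.2.1, hA.2.2, ?_⟩
  intro T hT hw
  have h := hmax (A ∪ T) (by simp [hsup A T hA.2.1 hT, hA.2.2, hw])
  have h2 : A = A ∪ T := Finset.eq_of_subset_of_card_le subset_union_left h
  rw [h2]
  exact subset_union_right

/-- Balanced signing: if `P`, `Q` are sublattices containing `∅` and `univ` such that
`mu` is even on the intersections, then there is a signing of the edges with zero balance on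
all members of `P` and `Q`. -/
theorem exists_balanced (E : Finset ι) (u v : ι → V) (P Q : Finset V → Prop)
    (P0 : P ∅) (P1 : P univ) (Pi : ∀ A B, P A → P B → P (A ∩ B))
    (Pu : ∀ A B, P A → P B → P (A ∪ B))
    (Q0 : Q ∅) (Q1 : Q univ) (Qi : ∀ A B, Q A → Q B → Q (A ∩ B))
    (Qu : ∀ A B, Q A → Q B → Q (A ∪ B))
    (hev : ∀ X Y, P X → Q Y → Even (mu E u v (X ∩ Y))) :
    ∃ s : ι → ℤ, (∀ e, s e = 1 ∨ s e = -1) ∧
      ∀ T, (P T ∨ Q T) →
        ∑ e ∈ E, s e * ((if u e ∈ T then 1 else 0) - (if v e ∈ T then 1 else 0)) = 0 := by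
  classical
  -- pattern map
  let π : V → Finset (Finset V) := fun w => univ.filter (fun T => (P T ∨ Q T) ∧ w ∈ T)
  have hπ : ∀ x w, π x = π w ↔ ∀ T, (P T ∨ Q T) → (x ∈ T ↔ w ∈ T) := by
    intro x w
    constructor
    · intro h T hT
      have : T ∈ π x ↔ T ∈ π w := by rw [h]
      simp only [π, mem_filter, mem_univ, true_and] at this
      tauto
    · intro h
      ext T
      simp only [π, mem_filter, mem_univ, true_and]
      constructor
      · rintro ⟨h1, h2⟩
        exact ⟨h1, (h T h1).1 h2⟩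
      · rintro ⟨h1, h2⟩
        exact ⟨h1, (h T h1).2 h2⟩
  have hK : ∀ w, Even (mu E u v (univ.filter (fun x => π x = π w))) := by
    intro w
    obtain ⟨A, hA, hwA, hA'⟩ := exists_least P P1 Pi w
    obtain ⟨A2, hA2, hwA2, hA2'⟩ := exists_greatest P P0 Pu w
    obtain ⟨B, hB, hwB, hB'⟩ := exists_least Q Q1 Qi w
    obtain ⟨B2, hB2, hwB2, hB2'⟩ := exists_greatest Q Q0 Qu w
    have hset : univ.filter (fun x => π x = π w) = ((A ∩ B) \ A2) \ B2 := by
      ext x
      simp only [mem_filter, mem_univ, true_and, mem_sdiff, mem_inter]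
      rw [hπ]
      constructor
      · intro h
        exact ⟨⟨⟨(h A (Or.inl hA)).2 hwA, (h B (Or.inr hB)).2 hwB⟩,
          fun hx => hwA2 ((h A2 (Or.inl hA2)).1 hx)⟩,
          fun hx => hwB2 ((h B2 (Or.inr hB2)).1 hx)⟩
      · rintro ⟨⟨⟨h1, h2⟩, h3⟩, h4⟩ T hT
        rcases hT with hT | hT
        · constructor
          · intro hx
            by_contra hw
            exact h3 (hA2' T hT hw hx)
          · intro hw
            exact hA' T hT hw h1
        · constructor
          · intro hx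
            by_contra hw
            exact h4 (hB2' T hT hw hx)
          · intro hw
            exact hB' T hT hw h2
    rw [hset, mu_sdiff, mu_sdiff]
    have e1 : ((A ∩ B) \ A2) ∩ B2 = (A ∩ (B ∩ B2)) \ A2 := by
      ext x; simp only [mem_inter, mem_sdiff]; tauto
    rw [e1, mu_sdiff]
    have e2 : (A ∩ B) ∩ A2 = (A ∩ A2) ∩ B := by
      ext x; simp only [mem_inter]; tauto
    have e3 : (A ∩ (B ∩ B2)) ∩ A2 = (A ∩ A2) ∩ (B ∩ B2) := by
      ext x; simp only [mem_inter]; tauto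
    rw [e2, e3]
    exact ((hev _ _ hA hB).sub (hev _ _ (Pi _ _ hA hA2) hB)).sub
      ((hev _ _ hA (Qi _ _ hB hB2)).sub (hev _ _ (Pi _ _ hA hA2) (Qi _ _ hB hB2)))
  have hdeg : ∀ k, Even (∑ e ∈ E, ((if π (u e) = k then 1 else 0) +
      (if π (v e) = k then 1 else 0) : ℤ)) := by
    intro k
    by_cases hk : ∃ w, π w = k
    · obtain ⟨w, rfl⟩ := hk
      obtain ⟨r, hr⟩ := hK w
      rw [mu_eq_sum] at hr
      simp only [mem_filter, mem_univ, true_and] at hr
      refine ⟨r + ∑ e ∈ E, (if π (v e) = π w then 1 else 0), ?_⟩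
      rw [sum_sub_distrib] at hr
      rw [sum_add_distrib]
      linarith
    · push Not at hk
      rw [sum_eq_zero]
      · exact ⟨0, rfl⟩
      · intro e _
        rw [if_neg (hk _), if_neg (hk _)]; rfl
  obtain ⟨s, hs1, hs2⟩ := eulerian E.card E (fun e => π (u e)) (fun e => π (v e)) rfl hdeg
  refine ⟨s, hs1, ?_⟩
  intro T hT
  have hmem : ∀ x, x ∈ T ↔ π x ∈ T.image π := by
    intro x
    rw [mem_image]
    constructor
    · intro hx; exact ⟨x, hx, rfl⟩
    · rintro ⟨y, hy, hxy⟩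
      exact ((hπ y x).1 hxy T hT).1 hy
  have hsum : ∀ x, (if x ∈ T then (1:ℤ) else 0) =
      ∑ k ∈ T.image π, if π x = k then 1 else 0 := by
    intro x
    rw [Finset.sum_ite_eq]
    by_cases hx : x ∈ T
    · rw [if_pos hx, if_pos ((hmem x).1 hx)]
    · rw [if_neg hx, if_neg (fun h => hx ((hmem x).2 h))]
  calc ∑ e ∈ E, s e * ((if u e ∈ T then 1 else 0) - (if v e ∈ T then 1 else 0))
      = ∑ e ∈ E, ∑ k ∈ T.image π, s e * ((if π (u e) = k then 1 else 0) -
          (if π (v e) = k then 1 else 0)) := by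
        apply sum_congr rfl
        intro e _
        rw [hsum (u e), hsum (v e), ← sum_sub_distrib, mul_sum]
    _ = ∑ k ∈ T.image π, ∑ e ∈ E, s e * ((if π (u e) = k then 1 else 0) -
          (if π (v e) = k then 1 else 0)) := sum_comm
    _ = 0 := by
        apply sum_eq_zero
        intro k _
        exact hs2 k

end

end Pool.Agent.MP_5d9c5f
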