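import Pool.Agent.Lib.MP_5d9c5f_lc.Core

/-!
# The critical case: the orientation
-/

namespace Pool.Agent.MP_5d9c5f

open Finset

variable {V ι : Type*} [DecidableEq V]

theorem cut_le_add (S : Finset ι) (x y : ι → V) (X A B : Finset V)
    (h : ∀ e ∈ S, x e ∈ X → y e ∉ X → (x e ∈ A ∧ y e ∉ A) ∨ (x e ∈ B ∧ y e ∉ B)) :
    cut S x y X ≤ cut S x y A + cut S x y B := by
  unfold cut
  rw [← sum_add_distrib]
  apply sum_le_sum
  intro e he
  have := h e he
  by_cases h1 : x e ∈ X ∧ y e ∉ X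
  · rw [if_pos h1]
    rcases this h1.1 h1.2 with h2 | h2
    · rw [if_pos h2]; split_ifs <;> norm_num
    · rw [if_pos h2]; split_ifs <;> norm_num
  · rw [if_neg h1]; split_ifs <;> norm_num

theorem cut_filter_add (S : Finset ι) (p : ι → Prop) [DecidablePred p] (x y : ι → V)
    (U : Finset V) :
    cut (S.filter p) x y U + cut (S.filter (fun i => ¬ p i)) x y U = cut S x y U := by
  unfold cut
  exact Finset.sum_filter_add_sum_filter_not S p _

theorem cut_congr (S : Finset ι) {x y x' y' : ι → V} (U : Finset V)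
    (hx : ∀ i ∈ S, x i = x' i) (hy : ∀ i ∈ S, y i = y' i) :
    cut S x y U = cut S x' y' U := by
  unfold cut
  apply sum_congr rfl
  intro i hi
  rw [hx i hi, hy i hi]

section
variable [Fintype V]

theorem exists_tight_triple (Viol P : Finset V → Prop)
    (hunc : ∀ X T, Viol X → P T → Viol (X ∩ T) ∨ Viol (X ∪ T)) :
    ∀ (n : ℕ) (X A B : Finset V), (B \ A).card = n → Viol X → P A → P B → A ⊆ X → X ⊆ B →
      ∃ X A B, Viol X ∧ P A ∧ P B ∧ A ⊆ X ∧ X ⊆ B ∧
        ∀ T, P T → A ⊆ T → T ⊆ B → T = A ∨ T = B := by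
  intro n
  induction n using Nat.strong_induction_on with
  | _ n ih =>
    intro X A B hn hX hA hB hAX hXB
    by_cases hall : ∀ T, P T → A ⊆ T → T ⊆ B → T = A ∨ T = B
    · exact ⟨X, A, B, hX, hA, hB, hAX, hXB, hall⟩
    · push Not at hall
      obtain ⟨T, hT, hAT, hTB, hTA, hTB'⟩ := hall
      rcases hunc X T hX hT with h | h
      · refine ih (T \ A).card ?_ (X ∩ T) A T rfl h hA hT (subset_inter hAX hAT)
          inter_subset_right
        rw [← hn]
        apply card_lt_card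
        rw [Finset.ssubset_iff_of_subset (sdiff_subset_sdiff hTB (Subset.refl _))]
        obtain ⟨z, hz1, hz2⟩ := exists_of_ssubset (Finset.ssubset_iff_subset_ne.2 ⟨hTB, hTB'⟩)
        exact ⟨z, mem_sdiff.2 ⟨hz1, fun hz => hz2 (hAT hz)⟩,
          fun hz => hz2 (mem_sdiff.1 hz).1⟩
      · refine ih (B \ T).card ?_ (X ∪ T) T B rfl h hT hB subset_union_right
          (union_subset hXB hTB)
        rw [← hn]
        apply card_lt_card
        rw [Finset.ssubset_iff_of_subset (sdiff_subset_sdiff (Subset.refl _) hAT)]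
        obtain ⟨z, hz1, hz2⟩ := exists_of_ssubset
          (Finset.ssubset_iff_subset_ne.2 ⟨hAT, fun h => hTA h.symm⟩)
        exact ⟨z, mem_sdiff.2 ⟨hTB hz1, hz2⟩, fun hz => (mem_sdiff.1 hz).2 hz1⟩

theorem lat_inter {R : Finset V → Prop} (h : ∀ A B, R A → R B → R (A ∩ B)) :
    ∀ A B, (A = ∅ ∨ A = univ ∨ R A) → (B = ∅ ∨ B = univ ∨ R B) →
      (A ∩ B = ∅ ∨ A ∩ B = univ ∨ R (A ∩ B)) := by
  rintro A B (rfl | rfl | hA) (rfl | rfl | hB)
  · left; simp
  · left; simp
  · left; simp
  · left; simp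
  · right; left; simp
  · rw [univ_inter]; exact Or.inr (Or.inr hB)
  · left; simp
  · rw [inter_univ]; exact Or.inr (Or.inr hA)
  · exact Or.inr (Or.inr (h A B hA hB))

theorem lat_union {R : Finset V → Prop} (h : ∀ A B, R A → R B → R (A ∪ B)) :
    ∀ A B, (A = ∅ ∨ A = univ ∨ R A) → (B = ∅ ∨ B = univ ∨ R B) →
      (A ∪ B = ∅ ∨ A ∪ B = univ ∨ R (A ∪ B)) := by
  rintro A B (rfl | rfl | hA) (rfl | rfl | hB)
  · left; simp
  · right; left; simp
  · rw [empty_union]; exact Or.inr (Or.inr hB)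
  · right; left; simp
  · right; left; simp
  · right; left; simp
  · rw [union_empty]; exact Or.inr (Or.inr hA)
  · right; left; simp
  · exact Or.inr (Or.inr (h A B hA hB))

omit [Fintype V] in
theorem no_inner {P : Finset V → Prop} (Pi : ∀ A B, P A → P B → P (A ∩ B))
    (Pu : ∀ A B, P A → P B → P (A ∪ B)) {A B : Finset V} (hA : P A) (hB : P B) (hAB : A ⊆ B)
    (hmin : ∀ T, P T → A ⊆ T → T ⊆ B → T = A ∨ T = B) {x y : V} {Z : Finset V} (hZ : P Z)
    (hx : x ∈ Z) (hy : y ∉ Z) (hxB : x ∈ B) (hyA : y ∉ A) : x ∈ A ∨ y ∉ B := by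
  rcases hmin ((Z ∪ A) ∩ B) (Pi _ _ (Pu _ _ hZ hA) hB)
    (subset_inter subset_union_right hAB) inter_subset_right with h | h
  · left
    rw [← h]
    simp [hx, hxB]
  · right
    intro hyB
    rw [← h] at hyB
    simp [hy, hyA] at hyB

end

section
variable [DecidableEq ι] [Fintype V] {A E : Finset ι} {u v : ι → V} {s₁ t₁ s₂ t₂ : V}

/-- The critical case has a good orientation. -/
theorem Crit.orient (H : Crit A E u v s₁ t₁ s₂ t₂) :
    ∃ x y : ι → V, (∀ i, i ∉ E → x i = u i ∧ y i = v i) ∧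
      (∀ i ∈ E, (x i = u i ∧ y i = v i) ∨ (x i = v i ∧ y i = u i)) ∧
      (∀ X, s₁ ∈ X → t₁ ∉ X → 1 ≤ cut A u v X + cut E x y X) ∧
      (∀ Y, s₂ ∈ Y → t₂ ∉ Y → 2 ≤ cut A u v Y + cut E x y Y) := by
  classical
  let P : Finset V → Prop := fun X => X = ∅ ∨ X = univ ∨ XX A E u v s₁ t₁ X
  let Q : Finset V → Prop := fun X => X = ∅ ∨ X = univ ∨ YY A E u v s₂ t₂ X
  have Pi : ∀ A B, P A → P B → P (A ∩ B) := lat_inter fun A B hA hB => (H.XX_uncross hA hB).1
  have Pu : ∀ A B, P A → P B → P (A ∪ B) := lat_union fun A B hA hB => (H.XX_uncross hA hB).2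
  have Qi : ∀ A B, Q A → Q B → Q (A ∩ B) := lat_inter fun A B hA hB => (H.YY_uncross hA hB).1
  have Qu : ∀ A B, Q A → Q B → Q (A ∪ B) := lat_union fun A B hA hB => (H.YY_uncross hA hB).2
  have hev : ∀ X Y, P X → Q Y → Even (mu E u v (X ∩ Y)) := by
    rintro X Y (rfl | rfl | hX) (rfl | rfl | hY)
    · simp [mu_empty]
    · simp [mu_empty]
    · simp [mu_empty]
    · simp [mu_empty]
    · simp [mu_univ]
    · obtain ⟨b1, b2, b3, b4, b5⟩ := hY
      rw [univ_inter]
      refine ⟨-1, ?_⟩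
      unfold mu; omega
    · simp [mu_empty]
    · obtain ⟨b1, b2, b3, b4, b5⟩ := hX
      rw [inter_univ]
      refine ⟨1, ?_⟩
      unfold mu; omega
    · rw [H.mu_inter hX hY]
      exact ⟨0, rfl⟩
  obtain ⟨s, hs1, hs2⟩ := exists_balanced E u v P Q (Or.inl rfl) (Or.inr (Or.inl rfl)) Pi Pu
    (Or.inl rfl) (Or.inr (Or.inl rfl)) Qi Qu hev
  -- positive and negative edges
  let Ep := E.filter (fun i => s i = 1)
  let Em := E.filter (fun i => ¬ s i = 1)
  let x : ι → V := fun i => if i ∈ E ∧ ¬ s i = 1 then v i else u i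
  let y : ι → V := fun i => if i ∈ E ∧ ¬ s i = 1 then u i else v i
  have hb : ∀ U, cut E x y U = cut Ep u v U + cut Em v u U := by
    intro U
    rw [← cut_filter_add E (fun i => s i = 1) x y U]
    congr 1
    · apply cut_congr
      · intro i hi
        have := (mem_filter.1 hi).2
        simp [x, this]
      · intro i hi
        have := (mem_filter.1 hi).2
        simp [y, this]
    · apply cut_congr
      · intro i hi
        have h1 := (mem_filter.1 hi).1
        have := (mem_filter.1 hi).2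
        simp [x, this, h1]
      · intro i hi
        have h1 := (mem_filter.1 hi).1
        have := (mem_filter.1 hi).2
        simp [y, this, h1]
  have ho : ∀ U, cut Ep u v U + cut Em u v U = cut E u v U := fun U =>
    cut_filter_add E (fun i => s i = 1) u v U
  have hi : ∀ U, cut Ep v u U + cut Em v u U = cut E v u U := fun U =>
    cut_filter_add E (fun i => s i = 1) v u U
  have hν : ∀ T, (P T ∨ Q T) →
      cut Ep u v T - cut Ep v u T - (cut Em u v T - cut Em v u T) = 0 := by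
    intro T hT
    have h := hs2 T hT
    rw [← Finset.sum_filter_add_sum_filter_not E (fun i => s i = 1)] at h
    have e1 : ∑ e ∈ E.filter (fun i => s i = 1),
        s e * ((if u e ∈ T then 1 else 0) - (if v e ∈ T then 1 else 0)) = mu Ep u v T := by
      rw [mu_eq_sum]
      apply sum_congr rfl
      intro i hi
      rw [(mem_filter.1 hi).2, one_mul]
    have e2 : ∑ e ∈ E.filter (fun i => ¬ s i = 1),
        s e * ((if u e ∈ T then 1 else 0) - (if v e ∈ T then 1 else 0)) = - mu Em u v T := by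
      rw [mu_eq_sum, ← sum_neg_distrib]
      apply sum_congr rfl
      intro i hi
      have h3 : s i = -1 := (hs1 i).resolve_left (mem_filter.1 hi).2
      rw [h3]; ring
    rw [e1, e2] at h
    unfold mu at h
    linarith
  have nn : ∀ (S : Finset ι) (x y : ι → V) (U : Finset V), 0 ≤ cut S x y U := cut_nonneg
  -- counts on tight sets
  have hXX : ∀ T, XX A E u v s₁ t₁ T → cut Ep u v T = 1 ∧ cut Em u v T = 1 ∧
      cut Ep v u T = 0 ∧ cut Em v u T = 0 := by
    intro T hT
    have h := hν T (Or.inl (Or.inr (Or.inr hT)))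
    obtain ⟨a1, a2, a3, a4, a5⟩ := hT
    have h1 := ho T
    have h2 := hi T
    have n1 := nn Ep u v T
    have n2 := nn Em u v T
    have n3 := nn Ep v u T
    have n4 := nn Em v u T
    refine ⟨?_, ?_, ?_, ?_⟩ <;> omega
  have hYY : ∀ T, YY A E u v s₂ t₂ T → cut Ep u v T = 0 ∧ cut Em u v T = 0 ∧
      cut Ep v u T = 1 ∧ cut Em v u T = 1 := by
    intro T hT
    have h := hν T (Or.inr (Or.inr (Or.inr hT)))
    obtain ⟨a1, a2, a3, a4, a5⟩ := hT
    have h1 := ho T
    have h2 := hi T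
    have n1 := nn Ep u v T
    have n2 := nn Em u v T
    have n3 := nn Ep v u T
    have n4 := nn Em v u T
    refine ⟨?_, ?_, ?_, ?_⟩ <;> omega
  refine ⟨x, y, ?_, ?_, ?_, ?_⟩
  · intro i hi
    simp [x, y, hi]
  · intro i hi
    by_cases h : s i = 1
    · left; simp [x, y, h]
    · right; simp [x, y, h, hi]
  · -- no violated path set
    by_contra hcon
    push Not at hcon
    obtain ⟨X₀, hX1, hX2, hX3⟩ := hcon
    let Viol : Finset V → Prop := fun X => s₁ ∈ X ∧ t₁ ∉ X ∧ cut A u v X + cut E x y X ≤ 0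
    obtain ⟨X, B, C, ⟨hX1, hX2, hX3⟩, hB, hC, hBX, hXC, hmin⟩ := exists_tight_triple Viol P (by
      rintro X T ⟨hX1, hX2, hX3⟩ (rfl | rfl | hT)
      · right; rw [union_empty]; exact ⟨hX1, hX2, hX3⟩
      · left; rw [inter_univ]; exact ⟨hX1, hX2, hX3⟩
      · have c1 := hb T
        obtain ⟨d1, d2, d3, d4⟩ := hXX T hT
        obtain ⟨a1, a2, a3, a4, a5⟩ := hT
        have s1 := cut_submod A u v X T
        have s2 := cut_submod E x y X T
        have m1 : s₁ ∈ X ∩ T := by simp [hX1, a1]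
        have m2 : t₁ ∉ X ∩ T := by simp [a2]
        have m3 : s₁ ∈ X ∪ T := by simp [a1]
        have m4 : t₁ ∉ X ∪ T := by simp [hX2, a2]
        by_cases hle : cut A u v (X ∩ T) + cut E x y (X ∩ T) ≤ 0
        · left; exact ⟨m1, m2, hle⟩
        · right; exact ⟨m3, m4, by omega⟩) _ X₀ ∅ univ rfl
      ⟨hX1, hX2, by omega⟩ (Or.inl rfl) (Or.inr (Or.inl rfl)) (empty_subset _) (subset_univ _)
    have n1 := nn A u v X
    have n2 := nn E x y X
    have n3 := nn Ep u v X
    have n4 := nn Em v u X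
    have hdX : cut A u v X = 0 := by omega
    have hbX := hb X
    have hz : ∀ T, P T → cut E v u T = 0 ∧ cut Em u v T ≤ 1 := by
      rintro T (rfl | rfl | hT)
      · simp [cut_empty]
      · simp [cut_univ]
      · exact ⟨hT.2.2.2.1, (hXX T hT).2.1.le⟩
    have hiX : cut E v u X = 0 := by
      rw [cut_eq_zero_iff]
      intro e he hv
      by_contra hu
      obtain ⟨Z, z1, z2, z3, z4, z5, z6⟩ := H.H3 e he
      have hZ : P Z := by
        have z7 := H.H3' Z z1 z2 z3 z4
        exact Or.inr (Or.inr ⟨z1, z2, z3, z7, by omega⟩)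
      have huC : u e ∈ C := (cut_eq_zero_iff E v u C).1 (hz C hC).1 e he (hXC hv)
      have hvB : v e ∉ B := fun h => hu (hBX ((cut_eq_zero_iff E v u B).1 (hz B hB).1 e he h))
      rcases no_inner Pi Pu hB hC (hBX.trans hXC) hmin hZ z5 z6 huC hvB with h | h
      · exact hu (hBX h)
      · exact h (hXC hv)
    have hoX : cut Em u v X ≤ cut Em u v B + cut Em u v C := by
      apply cut_le_add
      intro e he hu hv
      have he' : e ∈ E := (mem_filter.1 he).1
      obtain ⟨Z, z1, z2, z3, z4, z5, z6⟩ := H.H3 e he'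
      have hZ : P Z := by
        have z7 := H.H3' Z z1 z2 z3 z4
        exact Or.inr (Or.inr ⟨z1, z2, z3, z7, by omega⟩)
      have hvB : v e ∉ B := fun h => hv (hBX h)
      rcases no_inner Pi Pu hB hC (hBX.trans hXC) hmin hZ z5 z6 (hXC hu) hvB with h | h
      · exact Or.inl ⟨h, hvB⟩
      · exact Or.inr ⟨hXC hu, h⟩
    have c1 := (hz B hB).2
    have c2 := (hz C hC).2
    have c3 := ho X
    have c4 := hi X
    have c5 := H.H1 X hX1 hX2 hdX
    have hXX' : XX A E u v s₁ t₁ X := ⟨hX1, hX2, hdX, hiX, by omega⟩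
    have := (hXX X hXX').1
    omega
  · -- no violated flow set
    by_contra hcon
    push Not at hcon
    obtain ⟨X₀, hX1, hX2, hX3⟩ := hcon
    let Viol : Finset V → Prop := fun X => s₂ ∈ X ∧ t₂ ∉ X ∧ cut A u v X + cut E x y X ≤ 1
    obtain ⟨X, B, C, ⟨hX1, hX2, hX3⟩, hB, hC, hBX, hXC, hmin⟩ := exists_tight_triple Viol Q (by
      rintro X T ⟨hX1, hX2, hX3⟩ (rfl | rfl | hT)
      · right; rw [union_empty]; exact ⟨hX1, hX2, hX3⟩
      · left; rw [inter_univ]; exact ⟨hX1, hX2, hX3⟩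
      · have c1 := hb T
        obtain ⟨d1, d2, d3, d4⟩ := hYY T hT
        obtain ⟨a1, a2, a3, a4, a5⟩ := hT
        have s1 := cut_submod A u v X T
        have s2 := cut_submod E x y X T
        have m1 : s₂ ∈ X ∩ T := by simp [hX1, a1]
        have m2 : t₂ ∉ X ∩ T := by simp [a2]
        have m3 : s₂ ∈ X ∪ T := by simp [a1]
        have m4 : t₂ ∉ X ∪ T := by simp [hX2, a2]
        by_cases hle : cut A u v (X ∩ T) + cut E x y (X ∩ T) ≤ 1
        · left; exact ⟨m1, m2, hle⟩
        · right; exact ⟨m3, m4, by omega⟩) _ X₀ ∅ univ rfl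
      ⟨hX1, hX2, by omega⟩ (Or.inl rfl) (Or.inr (Or.inl rfl)) (empty_subset _) (subset_univ _)
    have n1 := nn A u v X
    have n2 := nn E x y X
    have n3 := nn Ep u v X
    have n4 := nn Em v u X
    have n5 := nn Ep v u X
    have n6 := nn Em u v X
    have hbX := hb X
    have hz : ∀ T, Q T → cut E u v T = 0 ∧ cut Ep v u T ≤ 1 := by
      rintro T (rfl | rfl | hT)
      · simp [cut_empty]
      · simp [cut_univ]
      · exact ⟨hT.2.2.2.1, (hYY T hT).2.2.1.le⟩
    have hY4 : ∀ e ∈ E, ∃ Z, Q Z ∧ v e ∈ Z ∧ u e ∉ Z := by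
      intro e he
      obtain ⟨Z, z1, z2, z3, z4, z5, z6⟩ := H.H4 e he
      refine ⟨Z, Or.inr (Or.inr ⟨z1, z2, ?_⟩), z5, z6⟩
      have z7 := H.H4' Z z1 z2 z3 z4
      have z8 := nn A u v Z
      have b1 := ind_nonneg s₁ Z
      have b2 := ind_le_one t₁ Z
      have hd1 : cut A u v Z = 1 := by
        by_cases hd : cut A u v Z = 0
        · have := H.g Z hd
          unfold mu at this
          omega
        · omega
      exact ⟨hd1, z7, by omega⟩
    have hoX : cut E u v X = 0 := by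
      rw [cut_eq_zero_iff]
      intro e he hu
      by_contra hv
      obtain ⟨Z, hZ, z5, z6⟩ := hY4 e he
      have hvC : v e ∈ C := (cut_eq_zero_iff E u v C).1 (hz C hC).1 e he (hXC hu)
      have huB : u e ∉ B := fun h => hv (hBX ((cut_eq_zero_iff E u v B).1 (hz B hB).1 e he h))
      rcases no_inner Qi Qu hB hC (hBX.trans hXC) hmin hZ z5 z6 hvC huB with h | h
      · exact hv (hBX h)
      · exact h (hXC hu)
    have hiX : cut Ep v u X ≤ cut Ep v u B + cut Ep v u C := by
      apply cut_le_add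
      intro e he hv hu
      have he' : e ∈ E := (mem_filter.1 he).1
      obtain ⟨Z, hZ, z5, z6⟩ := hY4 e he'
      have huB : u e ∉ B := fun h => hu (hBX h)
      rcases no_inner Qi Qu hB hC (hBX.trans hXC) hmin hZ z5 z6 (hXC hv) huB with h | h
      · exact Or.inl ⟨h, huB⟩
      · exact Or.inr ⟨hXC hv, h⟩
    have c1 := (hz B hB).2
    have c2 := (hz C hC).2
    have c3 := ho X
    have c4 := hi X
    have c5 := H.F X
    rw [ind_of_mem hX1, ind_of_not_mem hX2] at c5
    unfold mu at c5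
    have hYY' : YY A E u v s₂ t₂ X := ⟨hX1, hX2, by omega, hoX, by omega⟩
    have := (hYY X hYY').2.2.2
    omega

end

end Pool.Agent.MP_5d9c5f
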