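import Pool.Agent.Lib.MP_5d9c5f_lc.Algo

/-!
# Correctness of the algorithm
-/

namespace Pool.Agent.MP_5d9c5f

open Finset

theorem ct_orientAt (L : List Item) {i : ℕ} (hi : i < L.length) (r : Bool) (U : Finset Vtx) :
    ct (orientAt L i r) U = ct L U - out U L[i] + out U (turn r L[i]) := by
  rw [orientAt_eq_modify, List.modify_eq_take_cons_drop hi, ct_append, ct_cons,
    ct_split L hi U, ct_append]
  ring

theorem ct_eq_sum (L : List Item) (U : Finset Vtx) :
    ct L U = ∑ i : Fin L.length, out U L[i] := by
  unfold ct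
  rw [← Fin.sum_univ_fun_getElem]
  rfl

theorem out_true (U : Finset Vtx) {a : Item} (h : a.2 = true) :
    out U a = (if a.1.1 ∈ U ∧ a.1.2 ∉ U then 1 else 0) +
      (if a.1.2 ∈ U ∧ a.1.1 ∉ U then 1 else 0) := by
  unfold out
  simp only [h, true_and]
  by_cases h1 : a.1.1 ∈ U <;> by_cases h2 : a.1.2 ∈ U <;> simp [h1, h2]

/-- A stable feasible state has a good orientation. -/
theorem good_of_fix {q : Tm} {M : List Item} (hF : Fix q M) (hR : RelaxP q M) : Good q M := by
  classical
  let x : Fin M.length → Vtx := fun i => M[i].1.1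
  let y : Fin M.length → Vtx := fun i => M[i].1.2
  let E : Finset (Fin M.length) := univ.filter (fun i => M[i].2 = true)
  let A : Finset (Fin M.length) := univ.filter (fun i => ¬ M[i].2 = true)
  have hAE : A ∪ E = univ := by
    ext i
    simp only [A, E, mem_union, mem_filter, mem_univ, true_and, iff_true]
    tauto
  have hdis : Disjoint A E := by
    rw [Finset.disjoint_left]
    intro i hi hi'
    exact (mem_filter.1 hi).2 (mem_filter.1 hi').2
  have hct : ∀ U, ct M U = cut A x y U + dl E x y U := by
    intro U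
    rw [ct_eq_sum, ← Finset.sum_filter_add_sum_filter_not univ (fun i => M[i].2 = true), add_comm]
    congr 1
    · unfold cut
      apply sum_congr rfl
      intro i hi
      have hi' := (mem_filter.1 hi).2
      unfold out
      have : (((M[i].1.1 ∈ U ∧ M[i].1.2 ∉ U) ∨ (M[i].2 = true ∧ M[i].1.2 ∈ U ∧ M[i].1.1 ∉ U)))
          ↔ (x i ∈ U ∧ y i ∉ U) := by
        simp only [x, y]
        tauto
      exact if_congr this rfl rfl
    · unfold dl cut
      rw [← sum_add_distrib]
      apply sum_congr rfl
      intro i hi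
      exact out_true U (mem_filter.1 hi).2
  have key : ∀ U, dl E x y U ≠ 0 → ∃ (i : Fin M.length) (r : Bool), M[i].2 = true ∧
      ct (orientAt M i r) U ≤ ct M U - 1 := by
    intro U h0
    have n1 := cut_nonneg E x y U
    have n2 := cut_nonneg E y x U
    unfold dl at h0
    have h1 : 0 < cut E x y U ∨ 0 < cut E y x U := by omega
    rcases h1 with h1 | h1
    · obtain ⟨e, he, h2, h3⟩ := (cut_pos_iff E x y U).1 h1
      have hf := (mem_filter.1 he).2
      refine ⟨e, false, hf, ?_⟩
      rw [ct_orientAt M e.2 false U]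
      have e1 : out U M[e] = 1 := by
        unfold out
        rw [if_pos (Or.inl ⟨h2, h3⟩)]
      have e2 : out U (turn false M[e]) = 0 := by
        unfold turn
        rw [if_pos hf]
        unfold out
        rw [if_neg]
        rintro (⟨h4, _⟩ | ⟨h4, _⟩)
        · exact h3 h4
        · exact absurd h4 (by simp)
      change ct M U - out U M[e] + out U (turn false M[e]) ≤ ct M U - 1
      rw [e1, e2]
      omega
    · obtain ⟨e, he, h2, h3⟩ := (cut_pos_iff E y x U).1 h1
      have hf := (mem_filter.1 he).2
      refine ⟨e, true, hf, ?_⟩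
      rw [ct_orientAt M e.2 true U]
      have e1 : out U M[e] = 1 := by
        unfold out
        rw [if_pos (Or.inr ⟨hf, h2, h3⟩)]
      have e2 : out U (turn true M[e]) = 0 := by
        unfold turn
        rw [if_pos hf]
        unfold out
        rw [if_neg]
        rintro (⟨h4, _⟩ | ⟨h4, _⟩)
        · exact h3 h4
        · exact absurd h4 (by simp)
      change ct M U - out U M[e] + out U (turn true M[e]) ≤ ct M U - 1
      rw [e1, e2]
      omega
  have HS : Stable A E x y q.1.1 q.1.2 q.2.1 q.2.2 := by
    refine ⟨?_, ?_, ?_⟩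
    · intro X hs ht h0
      have h1 := hR.1 X hs ht
      have h2 := hct X
      obtain ⟨i, r, hf, hle⟩ := key X (by omega)
      have h3 := (hF.relax i.2 hf r).1 X hs ht
      omega
    · intro Y hs ht
      have h1 := hR.2 Y hs ht
      have h2 := hct Y
      omega
    · intro Y hs ht h0
      have h2 := hct Y
      obtain ⟨i, r, hf, hle⟩ := key Y h0
      have h3 := (hF.relax i.2 hf r).2 Y hs ht
      omega
  obtain ⟨x', y', g1, g2, g3, g4⟩ := HS.orient' hdis
  rw [hAE] at g3 g4
  have hct' : ∀ U, ct (List.ofFn (fun i : Fin M.length => (((x' i, y' i), false) : Item))) U =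
      cut univ x' y' U := by
    intro U
    unfold ct cut
    rw [List.map_ofFn, List.sum_ofFn]
    apply sum_congr rfl
    intro i _
    simp [out, Function.comp]
  refine ⟨List.ofFn (fun i : Fin M.length => (((x' i, y' i), false) : Item)), ?_, ?_, ?_⟩
  · rw [FO_iff]
    refine ⟨by simp, ?_⟩
    intro i hi
    rw [List.getElem_ofFn]
    by_cases hf : M[i].2 = true
    · have hiE : (⟨i, hi⟩ : Fin M.length) ∈ E := by simp [E, hf]
      rcases g2 _ hiE with ⟨h1, h2⟩ | ⟨h1, h2⟩
      · refine ⟨true, ?_⟩
        rw [h1, h2]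
        unfold turn
        rw [if_pos hf, if_pos rfl]
        rfl
      · refine ⟨false, ?_⟩
        rw [h1, h2]
        unfold turn
        rw [if_pos hf, if_neg (by simp)]
        rfl
    · have hiE : (⟨i, hi⟩ : Fin M.length) ∉ E := by simp [E, hf]
      refine ⟨true, ?_⟩
      rw [(g1 _ hiE).1, (g1 _ hiE).2]
      rw [turn_of_false (by simpa using hf)]
      have hf' : M[i].2 = false := by simpa using hf
      ext1
      · rfl
      · exact hf'.symm
  · intro U hs ht
    rw [hct']
    exact g3 U hs ht
  · intro U hs ht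
    rw [hct']
    exact g4 U hs ht

/-- Correctness of the decision procedure on items. -/
theorem dec_iff (q : Tm) (L : List Item) : dec q L = true ↔ Good q L := by
  unfold dec
  rw [relax_iff]
  constructor
  · intro h
    exact (good_closure q L).1 (good_of_fix (fix_closure q L) h)
  · intro h
    exact ((good_closure q L).2 h).relaxP

/-! ### Search -/

theorem fixStep_eq (q : Tm) (L : List Item) (i : ℕ) : ∃ r, fixStep q L i = orientAt L i r ∧
    (Good q L → Good q (fixStep q L i)) := by
  unfold fixStep
  split_ifs with h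
  · exact ⟨true, rfl, fun _ => (dec_iff _ _).1 h⟩
  · refine ⟨false, rfl, fun hL => ?_⟩
    obtain ⟨r, hr⟩ := (good_iff_exists q L i).1 hL
    cases r with
    | true => exact absurd ((dec_iff _ _).2 hr) h
    | false => exact hr

theorem foldl_fixStep (q : Tm) (L : List Item) (hL : Good q L) : ∀ k,
    ((List.range k).foldl (fixStep q) L).length = L.length ∧
    (∀ L', FO ((List.range k).foldl (fixStep q) L) L' → FO L L') ∧
    Good q ((List.range k).foldl (fixStep q) L) ∧
    ∀ j (hj : j < ((List.range k).foldl (fixStep q) L).length), j < k →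
      (((List.range k).foldl (fixStep q) L)[j]).2 = false := by
  intro k
  induction k with
  | zero => exact ⟨rfl, fun _ h => h, hL, fun j _ hj => by omega⟩
  | succ k ih =>
    rw [List.range_succ, List.foldl_append, List.foldl_cons, List.foldl_nil]
    obtain ⟨h1, h2, h3, h4⟩ := ih
    obtain ⟨r, hr1, hr2⟩ := fixStep_eq q ((List.range k).foldl (fixStep q) L) k
    have hr3 := hr2 h3
    rw [hr1] at hr3 ⊢
    refine ⟨by rw [orientAt_length, h1], fun L' hL' => h2 L' hL'.of_orientAt, hr3, ?_⟩
    intro j hj hjk
    rw [orientAt_getElem]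
    split_ifs with hkj
    · exact turn_flag _ _
    · exact h4 j _ (by omega)

theorem fixAll_spec (q : Tm) (L : List Item) (hL : Good q L) :
    FO L (fixAll q L) ∧ RelaxP q (fixAll q L) := by
  obtain ⟨h1, h2, h3, h4⟩ := foldl_fixStep q L hL L.length
  obtain ⟨L', h5, h6⟩ := h3
  have : L' = fixAll q L := by
    obtain ⟨h7, h8⟩ := (FO_iff _ _).1 h5
    apply List.ext_getElem h7
    intro i hi hi'
    obtain ⟨r, hr⟩ := h8 i hi'
    rw [hr]
    exact turn_of_false (h4 i hi' (by omega)) r
  rw [← this]
  exact ⟨h2 L' h5, h6⟩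

/-! ### Paths -/

theorem isWalk_iff (D : List (Vtx × Vtx)) : ∀ (p : List (Fin D.length)) (s t : Vtx),
    IsWalk D s p t ↔ Wk (fun i : Fin D.length => D[i].1) (fun i => D[i].2) s p t
  | [], s, t => Iff.rfl
  | i :: p, s, t => by
    unfold IsWalk Wk
    rw [isWalk_iff D p]

theorem ct_directed (D : List (Vtx × Vtx)) (U : Finset Vtx) :
    ct (D.map (fun a => ((a, false) : Item))) U =
      cut univ (fun i : Fin D.length => D[i].1) (fun i => D[i].2) U := by
  unfold ct cut
  rw [List.map_map]
  rw [← Fin.sum_univ_fun_getElem]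
  apply sum_congr rfl
  intro i _
  simp [out, Function.comp]

theorem path_iff (D : List (Vtx × Vtx)) (s t : Vtx) :
    (∃ p, IsPath D s t p) ↔
      ∀ U : Finset Vtx, s ∈ U → t ∉ U → 1 ≤ ct (D.map (fun a => ((a, false) : Item))) U := by
  constructor
  · rintro ⟨p, hp, _⟩ U hs ht
    rw [isWalk_iff] at hp
    obtain ⟨i, _, h1, h2⟩ := hp.leaves U hs ht
    rw [ct_directed]
    have := (cut_pos_iff univ (fun i : Fin D.length => D[i].1) (fun i => D[i].2) U).2
      ⟨i, mem_univ _, h1, h2⟩
    omega
  · intro h
    obtain ⟨p, _, h2, h3⟩ := exists_path (S := univ) (x := fun i : Fin D.length => D[i].1)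
      (y := fun i => D[i].2) (s := s) (t := t) (fun U hs ht => by
        have := h U hs ht
        rw [ct_directed] at this
        omega)
    exact ⟨p, (isWalk_iff D p s t).2 h2, h3⟩

theorem two_paths_iff (D : List (Vtx × Vtx)) (s t : Vtx) :
    (∃ q r, IsPath D s t q ∧ IsPath D s t r ∧ ∀ i ∈ q, i ∉ r) ↔
      ∀ U : Finset Vtx, s ∈ U → t ∉ U → 2 ≤ ct (D.map (fun a => ((a, false) : Item))) U := by
  constructor
  · rintro ⟨q, r, ⟨hq, _⟩, ⟨hr, _⟩, hd⟩ U hs ht
    rw [isWalk_iff] at hq hr
    obtain ⟨i, hi, h1, h2⟩ := hq.leaves U hs ht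
    obtain ⟨j, hj, h3, h4⟩ := hr.leaves U hs ht
    have hij : i ≠ j := fun h => hd i hi (h ▸ hj)
    rw [ct_directed]
    have hsub : cut {i, j} (fun i : Fin D.length => D[i].1) (fun i => D[i].2) U ≤
        cut univ (fun i : Fin D.length => D[i].1) (fun i => D[i].2) U := by
      unfold cut
      apply sum_le_sum_of_subset_of_nonneg (subset_univ _)
      intro k _ _
      split_ifs <;> norm_num
    have hval : cut {i, j} (fun i : Fin D.length => D[i].1) (fun i => D[i].2) U = 2 := by
      unfold cut
      rw [sum_pair hij, if_pos ⟨h1, h2⟩, if_pos ⟨h3, h4⟩]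
      norm_num
    omega
  · intro h
    obtain ⟨p, q, _, h2, h3, _, h5, h6, h7⟩ := exists_two_paths (S := univ)
      (x := fun i : Fin D.length => D[i].1)
      (y := fun i => D[i].2) (s := s) (t := t) (fun U hs ht => by
        have := h U hs ht
        rw [ct_directed] at this
        omega)
    exact ⟨p, q, ⟨(isWalk_iff D p s t).2 h2, h3⟩, ⟨(isWalk_iff D q s t).2 h5, h6⟩, h7⟩

/-! ### Inputs -/

theorem isSolution_iff (I : MixedInput) (as : List (Vtx × Vtx)) :
    IsSolution I as ↔ IsOrientation I.edges as ∧
      RelaxP (terms I) ((I.arcs ++ as).map (fun a => ((a, false) : Item))) := by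
  unfold IsSolution RelaxP
  rw [path_iff, two_paths_iff]
  rfl

theorem FO_edges : ∀ (es : List (Vtx × Vtx)) (L' : List Item),
    FO (es.map (fun a => ((a, true) : Item))) L' →
    ∃ as, IsOrientation es as ∧ L' = as.map (fun a => ((a, false) : Item))
  | [], L', h => by
    have : L' = [] := by
      cases h; rfl
    subst this
    exact ⟨[], List.Forall₂.nil, rfl⟩
  | e :: es, L', h => by
    rw [List.map_cons] at h
    cases h with
    | cons hab h' =>
      rename_i b L''
      obtain ⟨as, h1, h2⟩ := FO_edges es L'' h'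
      obtain ⟨r, hr⟩ := hab
      cases r with
      | true =>
        refine ⟨e :: as, List.Forall₂.cons (Or.inl rfl) h1, ?_⟩
        rw [List.map_cons, ← h2, hr]
        rfl
      | false =>
        refine ⟨(e.2, e.1) :: as, List.Forall₂.cons (Or.inr rfl) h1, ?_⟩
        rw [List.map_cons, ← h2, hr]
        rfl

theorem FO_items : ∀ (arcs es : List (Vtx × Vtx)) (L' : List Item),
    FO (arcs.map (fun a => ((a, false) : Item)) ++ es.map (fun a => ((a, true) : Item))) L' →
    ∃ as, IsOrientation es as ∧ L' = (arcs ++ as).map (fun a => ((a, false) : Item))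
  | [], es, L', h => FO_edges es L' h
  | a :: arcs, es, L', h => by
    rw [List.map_cons, List.cons_append] at h
    cases h with
    | cons hab h' =>
      rename_i b L''
      obtain ⟨as, h1, h2⟩ := FO_items arcs es L'' h'
      obtain ⟨r, hr⟩ := hab
      refine ⟨as, h1, ?_⟩
      rw [List.cons_append, List.map_cons, ← h2, hr, turn_of_false rfl]

theorem FO_edges' : ∀ (es as : List (Vtx × Vtx)), IsOrientation es as →
    FO (es.map (fun a => ((a, true) : Item))) (as.map (fun a => ((a, false) : Item))) := by
  intro es as h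
  induction h with
  | nil => exact List.Forall₂.nil
  | cons hab _ ih =>
    rw [List.map_cons, List.map_cons]
    refine List.Forall₂.cons ?_ ih
    rcases hab with rfl | rfl
    · exact ⟨true, rfl⟩
    · exact ⟨false, rfl⟩

theorem FO_items' (arcs es as : List (Vtx × Vtx)) (h : IsOrientation es as) :
    FO (arcs.map (fun a => ((a, false) : Item)) ++ es.map (fun a => ((a, true) : Item)))
      ((arcs ++ as).map (fun a => ((a, false) : Item))) := by
  induction arcs with
  | nil => exact FO_edges' es as h
  | cons a arcs ih =>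
    rw [List.map_cons, List.cons_append, List.cons_append, List.map_cons]
    exact List.Forall₂.cons ⟨true, rfl⟩ ih

theorem exists_solution_iff (I : MixedInput) :
    (∃ as, IsSolution I as) ↔ Good (terms I) (items I) := by
  constructor
  · rintro ⟨as, h⟩
    rw [isSolution_iff] at h
    exact ⟨_, FO_items' I.arcs I.edges as h.1, h.2⟩
  · rintro ⟨L', h1, h2⟩
    obtain ⟨as, h3, rfl⟩ := FO_items _ _ _ h1
    exact ⟨as, (isSolution_iff I as).2 ⟨h3, h2⟩⟩

theorem decide'_iff (I : MixedInput) : decide' I = true ↔ ∃ as, IsSolution I as := by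
  unfold decide'
  rw [dec_iff, exists_solution_iff]

theorem solve_some (I : MixedInput) (as : List (Vtx × Vtx)) (h : solve I = some as) :
    IsSolution I as := by
  unfold solve at h
  split_ifs at h with hd
  obtain ⟨h1, h2⟩ := fixAll_spec (terms I) (items I) ((dec_iff _ _).1 hd)
  obtain ⟨as', h3, h4⟩ := FO_items _ _ _ h1
  have h5 : as' = as := by
    rw [h4] at h
    rw [← List.map_drop, List.drop_left, List.map_map] at h
    have h6 : List.map ((fun a : Item => a.1) ∘ fun a => (a, false)) as' = as' := by
      rw [show ((fun a : Item => a.1) ∘ fun a => (a, false)) = id from rfl, List.map_id]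
    rw [h6] at h
    exact Option.some.inj h
  subst h5
  rw [isSolution_iff]
  exact ⟨h3, h4 ▸ h2⟩

theorem solve_none (I : MixedInput) (h : solve I = none) : ¬ ∃ as, IsSolution I as := by
  unfold solve at h
  split_ifs at h with hd
  rw [exists_solution_iff, ← dec_iff]
  exact hd

end Pool.Agent.MP_5d9c5f
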