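import Mathlib

/-!
# Cut functions

Integer-valued cut functions of finite families of arcs, submodularity, and a lemma on balanced
orientations of multigraphs with all degrees even.
-/

namespace Pool.Agent.MP_5d9c5f

open Finset

variable {V ι : Type*} [DecidableEq V]

/-- The number of items of `S` whose `x`-end is in `U` and whose `y`-end is not. -/
def cut (S : Finset ι) (x y : ι → V) (U : Finset V) : ℤ :=
  ∑ i ∈ S, if x i ∈ U ∧ y i ∉ U then 1 else 0

theorem cut_nonneg (S : Finset ι) (x y : ι → V) (U : Finset V) : 0 ≤ cut S x y U := by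
  unfold cut
  apply sum_nonneg
  intro i _
  split_ifs <;> norm_num

theorem cut_submod (S : Finset ι) (x y : ι → V) (U W : Finset V) :
    cut S x y (U ∩ W) + cut S x y (U ∪ W) ≤ cut S x y U + cut S x y W := by
  unfold cut
  rw [← sum_add_distrib, ← sum_add_distrib]
  apply sum_le_sum
  intro i _
  by_cases h1 : x i ∈ U <;> by_cases h2 : x i ∈ W <;> by_cases h3 : y i ∈ U <;>
    by_cases h4 : y i ∈ W <;> simp [h1, h2, h3, h4]

theorem cut_submod_strict [DecidableEq ι] (S : Finset ι) (x y : ι → V) (U W : Finset V)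
    (h : ∃ e ∈ S, x e ∈ U ∧ x e ∉ W ∧ y e ∈ W ∧ y e ∉ U) :
    cut S x y (U ∩ W) + cut S x y (U ∪ W) + 1 ≤ cut S x y U + cut S x y W := by
  obtain ⟨e, he, h1, h2, h3, h4⟩ := h
  unfold cut
  rw [← sum_add_distrib, ← sum_add_distrib, ← Finset.add_sum_erase _ _ he,
    ← Finset.add_sum_erase S (fun i => ((if x i ∈ U ∧ y i ∉ U then (1:ℤ) else 0) +
      if x i ∈ W ∧ y i ∉ W then 1 else 0)) he]
  have : ∑ i ∈ S.erase e, ((if x i ∈ U ∩ W ∧ y i ∉ U ∩ W then (1:ℤ) else 0) +
      if x i ∈ U ∪ W ∧ y i ∉ U ∪ W then 1 else 0) ≤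
      ∑ i ∈ S.erase e, ((if x i ∈ U ∧ y i ∉ U then (1:ℤ) else 0) +
      if x i ∈ W ∧ y i ∉ W then 1 else 0) := by
    apply sum_le_sum
    intro i _
    by_cases h1 : x i ∈ U <;> by_cases h2 : x i ∈ W <;> by_cases h3 : y i ∈ U <;>
      by_cases h4 : y i ∈ W <;> simp [h1, h2, h3, h4]
  have e1 : ((if x e ∈ U ∩ W ∧ y e ∉ U ∩ W then (1:ℤ) else 0) +
      if x e ∈ U ∪ W ∧ y e ∉ U ∪ W then 1 else 0) = 0 := by
    simp [h1, h2, h3, h4]
  have e2 : ((if x e ∈ U ∧ y e ∉ U then (1:ℤ) else 0) +
      if x e ∈ W ∧ y e ∉ W then 1 else 0) = 1 := by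
    simp [h1, h2, h3, h4]
  linarith

theorem cut_submod_strict' [DecidableEq ι] (S : Finset ι) (x y : ι → V) (U W : Finset V)
    (h : ∃ e ∈ S, x e ∈ W ∧ x e ∉ U ∧ y e ∈ U ∧ y e ∉ W) :
    cut S x y (U ∩ W) + cut S x y (U ∪ W) + 1 ≤ cut S x y U + cut S x y W := by
  have := cut_submod_strict S x y W U h
  rw [inter_comm, union_comm] at this
  linarith

theorem cut_univ [Fintype V] (S : Finset ι) (x y : ι → V) : cut S x y univ = 0 := by
  simp [cut]

theorem cut_empty (S : Finset ι) (x y : ι → V) : cut S x y ∅ = 0 := by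
  simp [cut]

theorem cut_pos_iff (S : Finset ι) (x y : ι → V) (U : Finset V) :
    0 < cut S x y U ↔ ∃ e ∈ S, x e ∈ U ∧ y e ∉ U := by
  constructor
  · intro h
    by_contra hc
    push Not at hc
    have : cut S x y U = 0 := by
      unfold cut
      apply sum_eq_zero
      intro i hi
      have := hc i hi
      rw [if_neg]
      tauto
    omega
  · rintro ⟨e, he, h1, h2⟩
    unfold cut
    apply sum_pos'
    · intro i _
      split_ifs <;> norm_num
    · exact ⟨e, he, by simp [h1, h2]⟩

theorem cut_eq_zero_iff (S : Finset ι) (x y : ι → V) (U : Finset V) :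
    cut S x y U = 0 ↔ ∀ e ∈ S, x e ∈ U → y e ∈ U := by
  have h := cut_pos_iff S x y U
  have h0 := cut_nonneg S x y U
  constructor
  · intro h1 e he hx
    by_contra hc
    have := h.2 ⟨e, he, hx, hc⟩
    omega
  · intro h1
    by_contra hc
    have : 0 < cut S x y U := by omega
    obtain ⟨e, he, hx, hy⟩ := h.1 this
    exact hy (h1 e he hx)

/-- The modular function `cut E u v - cut E v u`. -/
def mu (E : Finset ι) (u v : ι → V) (U : Finset V) : ℤ := cut E u v U - cut E v u U

theorem mu_eq_sum (E : Finset ι) (u v : ι → V) (U : Finset V) :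
    mu E u v U = ∑ i ∈ E, ((if u i ∈ U then 1 else 0) - (if v i ∈ U then 1 else 0)) := by
  unfold mu cut
  rw [← sum_sub_distrib]
  apply sum_congr rfl
  intro i _
  by_cases h1 : u i ∈ U <;> by_cases h2 : v i ∈ U <;> simp [h1, h2]

theorem mu_modular (E : Finset ι) (u v : ι → V) (U W : Finset V) :
    mu E u v (U ∩ W) + mu E u v (U ∪ W) = mu E u v U + mu E u v W := by
  simp only [mu_eq_sum]
  rw [← sum_add_distrib, ← sum_add_distrib]
  apply sum_congr rfl
  intro i _
  by_cases h1 : u i ∈ U <;> by_cases h2 : u i ∈ W <;> by_cases h3 : v i ∈ U <;>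
    by_cases h4 : v i ∈ W <;> simp [h1, h2, h3, h4]

theorem mu_univ [Fintype V] (E : Finset ι) (u v : ι → V) : mu E u v univ = 0 := by
  simp [mu_eq_sum]

theorem mu_empty (E : Finset ι) (u v : ι → V) : mu E u v ∅ = 0 := by
  simp [mu_eq_sum]

theorem mu_sdiff (E : Finset ι) (u v : ι → V) (U W : Finset V) :
    mu E u v (U \ W) = mu E u v U - mu E u v (U ∩ W) := by
  simp only [mu_eq_sum]
  rw [← sum_sub_distrib]
  apply sum_congr rfl
  intro i _
  by_cases h1 : u i ∈ U <;> by_cases h2 : u i ∈ W <;> by_cases h3 : v i ∈ U <;>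
    by_cases h4 : v i ∈ W <;> simp [h1, h2, h3, h4]

/-- A multigraph with all degrees even has a balanced orientation. -/
theorem eulerian {K : Type*} [DecidableEq K] [DecidableEq ι] :
    ∀ (n : ℕ) (S : Finset ι) (a b : ι → K), S.card = n →
      (∀ k, Even (∑ e ∈ S, ((if a e = k then 1 else 0) + (if b e = k then 1 else 0) : ℤ))) →
      ∃ s : ι → ℤ, (∀ e, s e = 1 ∨ s e = -1) ∧
        ∀ k, ∑ e ∈ S, s e * ((if a e = k then 1 else 0) - (if b e = k then 1 else 0)) = 0 := by
  intro n
  induction n with
  | zero =>
    intro S a b hS _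
    rw [card_eq_zero] at hS
    subst hS
    exact ⟨fun _ => 1, fun _ => Or.inl rfl, by simp⟩
  | succ n ih =>
    intro S a b hS hev
    obtain ⟨e, he⟩ : S.Nonempty := by
      rw [← card_pos]; omega
    by_cases hab : a e = b e
    · have hc : (S.erase e).card = n := by rw [card_erase_of_mem he]; omega
      obtain ⟨s, hs1, hs2⟩ := ih (S.erase e) a b hc (by
        intro k
        have h := hev k
        rw [← add_sum_erase _ _ he] at h
        rw [Int.even_add] at h
        rw [← h, hab]
        exact ⟨_, rfl⟩)
      refine ⟨s, hs1, ?_⟩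
      intro k
      rw [← add_sum_erase _ _ he, hs2 k, hab]
      simp
    · -- another edge at `b e`
      have hodd : ∃ e' ∈ S.erase e,
          ¬ Even ((if a e' = b e then 1 else 0) + (if b e' = b e then 1 else 0) : ℤ) := by
        by_contra hcon
        push Not at hcon
        have h1 := Finset.even_sum _ hcon
        have h2 := hev (b e)
        rw [← add_sum_erase _ _ he, Int.even_add] at h2
        have h3 := h2.2 h1
        rw [if_neg hab, if_pos rfl] at h3
        revert h3
        decide
      obtain ⟨e', he', hodd⟩ := hodd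
      have hne : e' ≠ e := (mem_erase.1 he').1
      have heS' : e' ∈ S := (mem_erase.1 he').2
      have hc : (S.erase e').card = n := by rw [card_erase_of_mem heS']; omega
      have heE : e ∈ S.erase e' := mem_erase.2 ⟨hne.symm, he⟩
      -- the other end of `e'`
      obtain ⟨c, hc'⟩ : ∃ c, (a e' = b e ∧ b e' = c ∧ c ≠ b e) ∨
          (b e' = b e ∧ a e' = c ∧ c ≠ b e) := by
        by_cases h1 : a e' = b e <;> by_cases h2 : b e' = b e
        · exfalso; apply hodd; rw [if_pos h1, if_pos h2]; decide
        · exact ⟨b e', Or.inl ⟨h1, rfl, h2⟩⟩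
        · exact ⟨a e', Or.inr ⟨h2, rfl, h1⟩⟩
        · exfalso; apply hodd; rw [if_neg h1, if_neg h2]; decide
      have key : ∀ k, (if a e' = k then (1:ℤ) else 0) + (if b e' = k then 1 else 0) =
          (if b e = k then 1 else 0) + (if c = k then 1 else 0) := by
        intro k
        rcases hc' with ⟨h1, h2, _⟩ | ⟨h1, h2, _⟩
        · rw [h1, h2]
        · rw [h1, h2]; ring
      obtain ⟨s, hs1, hs2⟩ := ih (S.erase e') a (Function.update b e c) hc (by
        intro k
        have h := hev k
        rw [← add_sum_erase _ _ heS', ← add_sum_erase _ _ heE] at h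
        rw [← add_sum_erase _ _ heE]
        have hrest : ∑ x ∈ (S.erase e').erase e, ((if a x = k then (1:ℤ) else 0) +
            (if Function.update b e c x = k then 1 else 0)) =
            ∑ x ∈ (S.erase e').erase e, ((if a x = k then (1:ℤ) else 0) +
            (if b x = k then 1 else 0)) := by
          apply sum_congr rfl
          intro x hx
          rw [Function.update_of_ne (mem_erase.1 hx).1]
        rw [hrest, Function.update_self]
        rw [key k] at h
        obtain ⟨r, hr⟩ := h
        refine ⟨r - (if b e = k then 1 else 0), ?_⟩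
        linarith)
      refine ⟨Function.update s e' (if a e' = b e then s e else - s e), ?_, ?_⟩
      · intro x
        by_cases hx : x = e'
        · subst hx
          rw [Function.update_self]
          rcases hs1 e with h | h <;> split_ifs <;> simp [h]
        · rw [Function.update_of_ne hx]
          exact hs1 x
      · intro k
        have h := hs2 k
        rw [← add_sum_erase _ _ heE, Function.update_self] at h
        rw [← add_sum_erase _ _ heS', ← add_sum_erase _ _ heE, Function.update_self,
          Function.update_of_ne hne.symm]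
        have hrest : ∑ x ∈ (S.erase e').erase e, s x * ((if a x = k then (1:ℤ) else 0) -
            (if Function.update b e c x = k then 1 else 0)) =
            ∑ x ∈ (S.erase e').erase e, Function.update s e' (if a e' = b e then s e else - s e) x
              * ((if a x = k then (1:ℤ) else 0) - (if b x = k then 1 else 0)) := by
          apply sum_congr rfl
          intro x hx
          rw [mem_erase, mem_erase] at hx
          rw [Function.update_of_ne hx.1, Function.update_of_ne hx.2.1]
        rw [hrest] at h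
        rcases hc' with ⟨h1, h2, h3⟩ | ⟨h1, h2, h3⟩
        · rw [if_pos h1, h1, h2]
          rw [if_pos h1] at h
          linarith
        · have h4 : a e' ≠ b e := by rw [h2]; exact h3
          rw [if_neg h4, h1, h2]
          rw [if_neg h4] at h
          linarith

end Pool.Agent.MP_5d9c5f
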