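import Pool.Agent.Lib.PolyTime.More

/-!
# Orienting a mixed graph for one path and two arc-disjoint paths: definitions
-/

namespace Pool.Agent.MP_5d9c5f

open Pool.Agent.PolyTime

/-- The names of the vertices are bit strings. -/
abbrev Vtx := List Bool

/-- An input of the problem: a mixed graph, given by the list of its directed arcs
`(tail, head)` and the list of its undirected edges (a pair of ends, in either order), and
four vertices.  Repetitions in the lists are parallel arcs and edges. -/
structure MixedInput where
  /-- the directed arcs -/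
  arcs : List (Vtx × Vtx)
  /-- the undirected edges -/
  edges : List (Vtx × Vtx)
  /-- source of the single path -/
  s₁ : Vtx
  /-- target of the single path -/
  t₁ : Vtx
  /-- source of the two arc-disjoint paths -/
  s₂ : Vtx
  /-- target of the two arc-disjoint paths -/
  t₂ : Vtx

/-- Inputs are represented (see `Pool.Agent.PolyTime.encode`) as the tuple of their six
components. -/
instance : Rep MixedInput := ⟨fun I => toT (I.arcs, I.edges, I.s₁, I.t₁, I.s₂, I.t₂)⟩

/-- `as` arises from the list `es` of undirected edges by replacing each edge `{u, v}` by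
exactly one of the arcs `(u, v)`, `(v, u)`. -/
def IsOrientation (es as : List (Vtx × Vtx)) : Prop :=
  List.Forall₂ (fun e a => a = (e.1, e.2) ∨ a = (e.2, e.1)) es as

/-- In the directed graph with list of arcs `D` (the arcs being identified with the positions
in the list), the sequence `p` of arcs is a directed walk from `s` to `t`. -/
def IsWalk (D : List (Vtx × Vtx)) : Vtx → List (Fin D.length) → Vtx → Prop
  | s, [], t => s = t
  | s, i :: p, t => D[i].1 = s ∧ IsWalk D D[i].2 p t

/-- `p` is a directed path from `s` to `t`: a walk that visits no vertex twice. -/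
def IsPath (D : List (Vtx × Vtx)) (s t : Vtx) (p : List (Fin D.length)) : Prop :=
  IsWalk D s p t ∧ (s :: p.map (fun i => D[i].2)).Nodup

/-- `as` is a suitable orientation of the undirected edges of the input: the resulting
directed graph has a directed `s₁`-`t₁` path and two arc-disjoint directed `s₂`-`t₂` paths. -/
def IsSolution (I : MixedInput) (as : List (Vtx × Vtx)) : Prop :=
  IsOrientation I.edges as ∧
  (∃ p, IsPath (I.arcs ++ as) I.s₁ I.t₁ p) ∧
  ∃ q r, IsPath (I.arcs ++ as) I.s₂ I.t₂ q ∧ IsPath (I.arcs ++ as) I.s₂ I.t₂ r ∧
    ∀ i ∈ q, i ∉ r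

/-- Different inputs have different encodings. -/
instance : InjRep MixedInput := ⟨fun I J h => by
  obtain ⟨a, b, c, d, e, f⟩ := I
  obtain ⟨a', b', c', d', e', f'⟩ := J
  have h' := InjRep.inj
    (α := List (Vtx × Vtx) × (List (Vtx × Vtx) × (Vtx × (Vtx × (Vtx × Vtx))))) h
  simp only [Prod.mk.injEq] at h'
  obtain ⟨rfl, rfl, rfl, rfl, rfl, rfl⟩ := h'
  rfl⟩

end Pool.Agent.MP_5d9c5f
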