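import Pool.Agent.Lib.MP_5d9c5f_lc.Core2

/-!
# Theorem A

If deleting any single undirected edge does not destroy the relaxation, then there is a good
orientation.
-/

namespace Pool.Agent.MP_5d9c5f

open Finset

variable {V ι : Type*} [DecidableEq V] [DecidableEq ι]

/-- The number of edges crossing `U` (in either direction). -/
def dl (E : Finset ι) (x y : ι → V) (U : Finset V) : ℤ := cut E x y U + cut E y x U

/-- Stability: after deleting any one undirected edge, the relaxation is still feasible. -/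
structure Stable (A E : Finset ι) (x y : ι → V) (s₁ t₁ s₂ t₂ : V) : Prop where
  P1 : ∀ X, s₁ ∈ X → t₁ ∉ X → cut A x y X = 0 → 2 ≤ dl E x y X
  F0 : ∀ Y, s₂ ∈ Y → t₂ ∉ Y → 2 ≤ cut A x y Y + dl E x y Y
  F1 : ∀ Y, s₂ ∈ Y → t₂ ∉ Y → dl E x y Y ≠ 0 → 3 ≤ cut A x y Y + dl E x y Y

omit [DecidableEq ι] in
theorem dl_nonneg (E : Finset ι) (x y : ι → V) (U : Finset V) : 0 ≤ dl E x y U :=
  add_nonneg (cut_nonneg _ _ _ _) (cut_nonneg _ _ _ _)

/-- Indicator of an arc leaving a set. -/
def lv (p q : V) (U : Finset V) : ℤ := if p ∈ U ∧ q ∉ U then 1 else 0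

theorem cut_insert {e : ι} {A : Finset ι} (he : e ∉ A) (x y : ι → V) (U : Finset V) :
    cut (insert e A) x y U = lv (x e) (y e) U + cut A x y U := by
  unfold cut lv
  rw [sum_insert he]

theorem cut_erase {e : ι} {E : Finset ι} (he : e ∈ E) (x y : ι → V) (U : Finset V) :
    cut E x y U = lv (x e) (y e) U + cut (E.erase e) x y U := by
  unfold cut lv
  rw [← add_sum_erase _ _ he]

/-- two pairs of end functions agree up to swapping on `E`. -/
def SwapOn (E : Finset ι) (x y x' y' : ι → V) : Prop :=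
  ∀ i ∈ E, (x' i = x i ∧ y' i = y i) ∨ (x' i = y i ∧ y' i = x i)

omit [DecidableEq ι] in
theorem dl_swap {E : Finset ι} {x y x' y' : ι → V} (h : SwapOn E x y x' y') (U : Finset V) :
    dl E x' y' U = dl E x y U := by
  unfold dl cut
  rw [← sum_add_distrib, ← sum_add_distrib]
  apply sum_congr rfl
  intro i hi
  rcases h i hi with ⟨h1, h2⟩ | ⟨h1, h2⟩
  · rw [h1, h2]
  · rw [h1, h2]; ring

theorem lv_cases (p q : V) (U : Finset V) :
    (p ∈ U ∧ q ∉ U ∧ lv p q U = 1 ∧ lv q p U = 0) ∨
    (q ∈ U ∧ p ∉ U ∧ lv p q U = 0 ∧ lv q p U = 1) ∨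
    (lv p q U = 0 ∧ lv q p U = 0) := by
  unfold lv
  by_cases h1 : p ∈ U <;> by_cases h2 : q ∈ U <;> simp [h1, h2]

section
variable (A E : Finset ι) (x y : ι → V) (s₁ t₁ s₂ t₂ : V)

/-- Orienting an edge as `p → q` destroys stability of the path requirement. -/
def Al (p q : V) : Prop :=
  ∃ X, s₁ ∈ X ∧ t₁ ∉ X ∧ cut A x y X = 0 ∧ dl E x y X = 2 ∧ q ∈ X ∧ p ∉ X

/-- Orienting an edge as `p → q` destroys stability of the flow requirement. -/
def Be (p q : V) : Prop :=
  ∃ Y, s₂ ∈ Y ∧ t₂ ∉ Y ∧ cut A x y Y + dl E x y Y = 3 ∧ 2 ≤ dl E x y Y ∧ q ∈ Y ∧ p ∉ Y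

end

variable {A E : Finset ι} {x y : ι → V} {s₁ t₁ s₂ t₂ : V}

theorem Stable.viol (H : Stable A E x y s₁ t₁ s₂ t₂) {e : ι} (he : e ∈ E) (heA : e ∉ A)
    {x' y' : ι → V} (hx : ∀ i, i ≠ e → x' i = x i ∧ y' i = y i)
    (hxe : (x' e = x e ∧ y' e = y e) ∨ (x' e = y e ∧ y' e = x e))
    (hn : ¬ Stable (insert e A) (E.erase e) x' y' s₁ t₁ s₂ t₂) :
    Al A E x y s₁ t₁ (x' e) (y' e) ∨ Be A E x y s₂ t₂ (x' e) (y' e) := by
  have hA : ∀ U, cut (insert e A) x' y' U = lv (x' e) (y' e) U + cut A x y U := by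
    intro U
    rw [cut_insert heA]
    congr 1
    apply cut_congr
    · intro i hi
      exact (hx i (fun h => heA (h ▸ hi))).1
    · intro i hi
      exact (hx i (fun h => heA (h ▸ hi))).2
  have hE : ∀ U, dl E x y U = lv (x' e) (y' e) U + lv (y' e) (x' e) U +
      dl (E.erase e) x' y' U := by
    intro U
    have hsw : SwapOn E x y x' y' := by
      intro i hi
      by_cases hie : i = e
      · subst hie; exact hxe
      · exact Or.inl (hx i hie)
    rw [← dl_swap hsw]
    unfold dl
    rw [cut_erase he x' y', cut_erase he y' x']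
    ring
  by_contra hcon
  unfold Al Be at hcon
  push Not at hcon
  obtain ⟨hc1, hc2⟩ := hcon
  apply hn
  refine ⟨?_, ?_, ?_⟩
  · intro X hs ht hd
    have n1 := cut_nonneg A x y X
    have n2 := dl_nonneg (E.erase e) x' y' X
    have a1 := hA X
    have a2 := hE X
    have a3 := H.P1 X hs ht
    rcases lv_cases (x' e) (y' e) X with ⟨b1, b2, b3, b4⟩ | ⟨b1, b2, b3, b4⟩ | ⟨b3, b4⟩
    · omega
    · have a4 : cut A x y X = 0 := by omega
      have a5 := a3 a4
      by_contra hlt
      have a6 : dl E x y X = 2 := by omega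
      exact b2 (hc1 X hs ht a4 a6 b1)
    · have a4 : cut A x y X = 0 := by omega
      have a5 := a3 a4
      omega
  · intro Y hs ht
    have n1 := cut_nonneg A x y Y
    have n2 := dl_nonneg (E.erase e) x' y' Y
    have a1 := hA Y
    have a2 := hE Y
    have a3 := H.F0 Y hs ht
    have a4 := H.F1 Y hs ht
    rcases lv_cases (x' e) (y' e) Y with ⟨b1, b2, b3, b4⟩ | ⟨b1, b2, b3, b4⟩ | ⟨b3, b4⟩
    · omega
    · have a5 := a4 (by omega)
      omega
    · omega
  · intro Y hs ht h0
    have n1 := cut_nonneg A x y Y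
    have n2 := dl_nonneg (E.erase e) x' y' Y
    have a1 := hA Y
    have a2 := hE Y
    have a3 := H.F0 Y hs ht
    have a4 := H.F1 Y hs ht
    rcases lv_cases (x' e) (y' e) Y with ⟨b1, b2, b3, b4⟩ | ⟨b1, b2, b3, b4⟩ | ⟨b3, b4⟩
    · have a5 := a4 (by omega)
      omega
    · have a5 := a4 (by omega)
      by_contra hlt
      exact b2 (hc2 Y hs ht (by omega) (by omega) b1)
    · have a5 := a4 (by omega)
      omega

theorem Stable.not_al (H : Stable A E x y s₁ t₁ s₂ t₂) {e : ι} (he : e ∈ E) :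
    ¬ (Al A E x y s₁ t₁ (x e) (y e) ∧ Al A E x y s₁ t₁ (y e) (x e)) := by
  rintro ⟨⟨X, a1, a2, a3, a4, a5, a6⟩, ⟨W, b1, b2, b3, b4, b5, b6⟩⟩
  have s1 := cut_submod A x y X W
  have s2 := cut_submod_strict' E x y X W ⟨e, he, b5, a6, a5, b6⟩
  have s3 := cut_submod_strict E y x X W ⟨e, he, a5, b6, b5, a6⟩
  have n1 := cut_nonneg A x y (X ∩ W)
  have n2 := cut_nonneg A x y (X ∪ W)
  have h1 := H.P1 (X ∩ W) (by simp [a1, b1]) (by simp [a2]) (by omega)
  have h2 := H.P1 (X ∪ W) (by simp [a1]) (by simp [a2, b2]) (by omega)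
  unfold dl at *
  omega

theorem Stable.not_be (H : Stable A E x y s₁ t₁ s₂ t₂) {e : ι} (he : e ∈ E) :
    ¬ (Be A E x y s₂ t₂ (x e) (y e) ∧ Be A E x y s₂ t₂ (y e) (x e)) := by
  rintro ⟨⟨X, a1, a2, a3, a4, a5, a6⟩, ⟨W, b1, b2, b3, b4, b5, b6⟩⟩
  have s1 := cut_submod A x y X W
  have s2 := cut_submod_strict' E x y X W ⟨e, he, b5, a6, a5, b6⟩
  have s3 := cut_submod_strict E y x X W ⟨e, he, a5, b6, b5, a6⟩
  have n1 := cut_nonneg A x y (X ∩ W)
  have n2 := cut_nonneg A x y (X ∪ W)
  have n3 := dl_nonneg E x y (X ∩ W)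
  have n4 := dl_nonneg E x y (X ∪ W)
  have h1 := H.F0 (X ∩ W) (by simp [a1, b1]) (by simp [a2])
  have h2 := H.F0 (X ∪ W) (by simp [a1]) (by simp [a2, b2])
  have h3 := H.F1 (X ∩ W) (by simp [a1, b1]) (by simp [a2])
  have h4 := H.F1 (X ∪ W) (by simp [a1]) (by simp [a2, b2])
  unfold dl at *
  omega

/-- **Theorem A.** -/
theorem Stable.orient [Fintype V] : ∀ (n : ℕ) (A E : Finset ι) (x y : ι → V), E.card = n →
    Disjoint A E → Stable A E x y s₁ t₁ s₂ t₂ →
    ∃ x' y' : ι → V, (∀ i, i ∉ E → x' i = x i ∧ y' i = y i) ∧ SwapOn E x y x' y' ∧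
      (∀ X, s₁ ∈ X → t₁ ∉ X → 1 ≤ cut (A ∪ E) x' y' X) ∧
      (∀ Y, s₂ ∈ Y → t₂ ∉ Y → 2 ≤ cut (A ∪ E) x' y' Y) := by
  classical
  intro n
  induction n with
  | zero =>
    intro A E x y hE hd H
    rw [card_eq_zero] at hE
    subst hE
    refine ⟨x, y, fun i _ => ⟨rfl, rfl⟩, fun i hi => by simp at hi, ?_, ?_⟩
    · intro X hs ht
      rw [union_empty]
      have h1 := H.P1 X hs ht
      have h2 := cut_nonneg A x y X
      have h3 : dl (∅ : Finset ι) x y X = 0 := by simp [dl, cut]
      omega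
    · intro Y hs ht
      rw [union_empty]
      have h1 := H.F0 Y hs ht
      have h3 : dl (∅ : Finset ι) x y Y = 0 := by simp [dl, cut]
      omega
  | succ n ih =>
    intro A E x y hE hdis H
    have hEA : ∀ e ∈ E, e ∉ A := fun e he hA => (Finset.disjoint_left.1 hdis) hA he
    by_cases hcase : ∃ e ∈ E, ∃ x₁ y₁ : ι → V, (∀ i, i ≠ e → x₁ i = x i ∧ y₁ i = y i) ∧
        ((x₁ e = x e ∧ y₁ e = y e) ∨ (x₁ e = y e ∧ y₁ e = x e)) ∧
        Stable (insert e A) (E.erase e) x₁ y₁ s₁ t₁ s₂ t₂
    · obtain ⟨e, he, x₁, y₁, h1, h2, h3⟩ := hcase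
      obtain ⟨x', y', g1, g2, g3, g4⟩ := ih (insert e A) (E.erase e) x₁ y₁
        (by rw [card_erase_of_mem he]; omega) (by
          rw [disjoint_insert_left]
          exact ⟨notMem_erase _ _, disjoint_of_subset_right (erase_subset _ _) hdis⟩) h3
      have hun : insert e A ∪ E.erase e = A ∪ E := by
        ext i
        simp only [mem_union, mem_insert, mem_erase]
        by_cases hie : i = e
        · subst hie; simp [he]
        · simp [hie]
      rw [hun] at g3 g4
      refine ⟨x', y', ?_, ?_, g3, g4⟩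
      · intro i hi
        have hie : i ≠ e := fun h => hi (h ▸ he)
        rw [(g1 i (fun h => hi (mem_erase.1 h).2)).1, (g1 i (fun h => hi (mem_erase.1 h).2)).2,
          (h1 i hie).1, (h1 i hie).2]
        exact ⟨rfl, rfl⟩
      · intro i hi
        by_cases hie : i = e
        · subst hie
          rw [(g1 i (notMem_erase _ _)).1, (g1 i (notMem_erase _ _)).2]
          exact h2
        · have := g2 i (mem_erase.2 ⟨hie, hi⟩)
          rw [(h1 i hie).1, (h1 i hie).2] at this
          exact this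
    · push Not at hcase
      have hxy : ∀ e ∈ E, Al A E x y s₁ t₁ (x e) (y e) ∨ Be A E x y s₂ t₂ (x e) (y e) := by
        intro e he
        exact H.viol he (hEA e he) (x' := x) (y' := y) (fun i _ => ⟨rfl, rfl⟩)
          (Or.inl ⟨rfl, rfl⟩) (hcase e he x y (fun i _ => ⟨rfl, rfl⟩) (Or.inl ⟨rfl, rfl⟩))
      have hyx : ∀ e ∈ E, Al A E x y s₁ t₁ (y e) (x e) ∨ Be A E x y s₂ t₂ (y e) (x e) := by
        intro e he
        have h1 : ∀ i, i ≠ e → Function.update x e (y e) i = x i ∧
            Function.update y e (x e) i = y i := by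
          intro i hi
          rw [Function.update_of_ne hi, Function.update_of_ne hi]
          exact ⟨rfl, rfl⟩
        have h2 : Function.update x e (y e) e = y e ∧ Function.update y e (x e) e = x e := by
          rw [Function.update_self, Function.update_self]
          exact ⟨rfl, rfl⟩
        have := H.viol he (hEA e he) h1 (Or.inr h2) (hcase e he _ _ h1 (Or.inr h2))
        rw [h2.1, h2.2] at this
        exact this
      let u : ι → V := fun i =>
        if i ∈ E ∧ ¬ Al A E x y s₁ t₁ (y i) (x i) then y i else x i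
      let v : ι → V := fun i =>
        if i ∈ E ∧ ¬ Al A E x y s₁ t₁ (y i) (x i) then x i else y i
      have huvA : ∀ i, i ∉ E → u i = x i ∧ v i = y i := by
        intro i hi
        simp [u, v, hi]
      have hsw : SwapOn E x y u v := by
        intro i hi
        by_cases h : Al A E x y s₁ t₁ (y i) (x i)
        · left; simp [u, v, h]
        · right; simp [u, v, h, hi]
      have hAcut : ∀ U, cut A u v U = cut A x y U := by
        intro U
        apply cut_congr
        · intro i hi
          exact (huvA i (fun h => hEA i h hi)).1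
        · intro i hi
          exact (huvA i (fun h => hEA i h hi)).2
      have hEcut : ∀ U, cut E u v U + cut E v u U = dl E x y U := fun U => dl_swap hsw U
      have hAl : ∀ e ∈ E, Al A E x y s₁ t₁ (v e) (u e) := by
        intro e he
        by_cases h : Al A E x y s₁ t₁ (y e) (x e)
        · simp [u, v, h]
        · have h1 := (hyx e he).resolve_left h
          have h2 := (hxy e he).resolve_right (fun h2 => H.not_be he ⟨h2, h1⟩)
          simpa [u, v, h, he] using h2
      have hBe : ∀ e ∈ E, Be A E x y s₂ t₂ (u e) (v e) := by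
        intro e he
        by_cases h : Al A E x y s₁ t₁ (y e) (x e)
        · have h1 := (hxy e he).resolve_left (fun h2 => H.not_al he ⟨h2, h⟩)
          simpa [u, v, h] using h1
        · have h1 := (hyx e he).resolve_left h
          simpa [u, v, h, he] using h1
      have hnAl : ∀ e ∈ E, ¬ Al A E x y s₁ t₁ (u e) (v e) := by
        intro e he h
        have h' := hAl e he
        rcases hsw e he with ⟨h1, h2⟩ | ⟨h1, h2⟩
        · rw [h1, h2] at h h'; exact H.not_al he ⟨h, h'⟩
        · rw [h1, h2] at h h'; exact H.not_al he ⟨h', h⟩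
      have hnBe : ∀ e ∈ E, ¬ Be A E x y s₂ t₂ (v e) (u e) := by
        intro e he h
        have h' := hBe e he
        rcases hsw e he with ⟨h1, h2⟩ | ⟨h1, h2⟩
        · rw [h1, h2] at h h'; exact H.not_be he ⟨h', h⟩
        · rw [h1, h2] at h h'; exact H.not_be he ⟨h, h'⟩
      have hcrit : Crit A E u v s₁ t₁ s₂ t₂ := by
        refine ⟨?_, ?_, ?_, ?_, ?_, ?_, ?_⟩
        · intro X hs ht hd
          rw [hAcut] at hd
          rw [hEcut]
          exact H.P1 X hs ht hd
        · intro Y hs ht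
          rw [hAcut, add_assoc, hEcut]
          exact H.F0 Y hs ht
        · intro Y hs ht h0
          rw [hEcut] at h0
          rw [hAcut, add_assoc, hEcut]
          exact H.F1 Y hs ht h0
        · intro e he
          obtain ⟨X, a1, a2, a3, a4, a5, a6⟩ := hAl e he
          exact ⟨X, a1, a2, by rw [hAcut]; exact a3, by rw [hEcut]; exact a4, a5, a6⟩
        · intro e he
          obtain ⟨Y, a1, a2, a3, a4, a5, a6⟩ := hBe e he
          exact ⟨Y, a1, a2, by rw [hAcut, add_assoc, hEcut]; exact a3,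
            by rw [hEcut]; exact a4, a5, a6⟩
        · intro X hs ht hd h2
          rw [hAcut] at hd
          rw [hEcut] at h2
          rw [cut_eq_zero_iff]
          intro e he hv
          by_contra hu
          exact hnAl e he ⟨X, hs, ht, hd, h2, hv, hu⟩
        · intro Y hs ht h3 h2
          rw [hAcut, add_assoc, hEcut] at h3
          rw [hEcut] at h2
          rw [cut_eq_zero_iff]
          intro e he hu
          by_contra hv
          exact hnBe e he ⟨Y, hs, ht, h3, h2, hu, hv⟩
      obtain ⟨x', y', g1, g2, g3, g4⟩ := hcrit.orient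
      have hun : ∀ U, cut (A ∪ E) x' y' U = cut A u v U + cut E x' y' U := by
        intro U
        have : cut A u v U = cut A x' y' U := by
          apply cut_congr
          · intro i hi
            exact (g1 i (fun h => hEA i h hi)).1.symm
          · intro i hi
            exact (g1 i (fun h => hEA i h hi)).2.symm
        rw [this]
        unfold cut
        rw [sum_union hdis]
      refine ⟨x', y', ?_, ?_, ?_, ?_⟩
      · intro i hi
        rw [(g1 i hi).1, (g1 i hi).2]
        exact huvA i hi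
      · intro i hi
        rcases g2 i hi with ⟨h1, h2⟩ | ⟨h1, h2⟩ <;> rcases hsw i hi with ⟨h3, h4⟩ | ⟨h3, h4⟩ <;>
          rw [h1, h2, h3, h4] <;> simp
      · intro X hs ht
        rw [hun]
        exact g3 X hs ht
      · intro Y hs ht
        rw [hun]
        exact g4 Y hs ht

end Pool.Agent.MP_5d9c5f
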