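import Pool.Agent.Lib.MP_5d9c5f_lc.Cut

/-!
# Paths and cuts

Reachability, and the case `k = 2` of Menger's theorem for arc-disjoint paths.
-/

namespace Pool.Agent.MP_5d9c5f

open Finset

variable {V ι : Type*} [DecidableEq V]

/-- Directed walks, given by the list of the arcs. -/
def Wk (x y : ι → V) : V → List ι → V → Prop
  | s, [], t => s = t
  | s, i :: p, t => x i = s ∧ Wk x y (y i) p t

omit [DecidableEq V] in
theorem Wk.append {x y : ι → V} : ∀ {p q : List ι} {s w t : V}, Wk x y s p w → Wk x y w q t →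
    Wk x y s (p ++ q) t
  | [], q, s, w, t, h, h' => by
    have : s = w := h
    subst this
    exact h'
  | i :: p, q, s, w, t, h, h' => ⟨h.1, Wk.append h.2 h'⟩

/-- A suffix of a simple walk starting at a visited vertex. -/
theorem Wk.suffix {x y : ι → V} (s : V) : ∀ {p : List ι} {a t : V}, Wk x y a p t →
    (a :: p.map y).Nodup → s ∈ a :: p.map y →
    ∃ q, (∀ i ∈ q, i ∈ p) ∧ Wk x y s q t ∧ (s :: q.map y).Nodup
  | [], a, t, h, hn, hs => by
    simp only [List.map_nil, List.mem_singleton] at hs
    subst hs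
    exact ⟨[], by simp, h, by simp⟩
  | i :: p, a, t, h, hn, hs => by
    by_cases hsa : s = a
    · subst hsa
      exact ⟨i :: p, fun _ h => h, h, hn⟩
    · rw [List.mem_cons] at hs
      have hs' := hs.resolve_left hsa
      rw [List.map_cons] at hs' hn
      obtain ⟨q, h1, h2, h3⟩ := Wk.suffix s h.2 (List.nodup_cons.1 hn).2 hs'
      exact ⟨q, fun j hj => List.mem_cons_of_mem _ (h1 j hj), h2, h3⟩

/-- Every walk contains a path. -/
theorem Wk.shorten {x y : ι → V} : ∀ {p : List ι} {s t : V}, Wk x y s p t →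
    ∃ q, (∀ i ∈ q, i ∈ p) ∧ Wk x y s q t ∧ (s :: q.map y).Nodup
  | [], s, t, h => ⟨[], by simp, h, by simp⟩
  | i :: p, s, t, h => by
    obtain ⟨q, h1, h2, h3⟩ := Wk.shorten h.2
    by_cases hs : s ∈ y i :: q.map y
    · obtain ⟨r, r1, r2, r3⟩ := Wk.suffix s h2 h3 hs
      exact ⟨r, fun j hj => List.mem_cons_of_mem _ (h1 j (r1 j hj)), r2, r3⟩
    · refine ⟨i :: q, ?_, ⟨h.1, h2⟩, ?_⟩
      · intro j hj
        rcases List.mem_cons.1 hj with rfl | hj
        · simp
        · exact List.mem_cons_of_mem _ (h1 j hj)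
      · rw [List.map_cons]
        exact List.nodup_cons.2 ⟨hs, h3⟩

/-- A walk leaves every set containing its start but not its end. -/
theorem Wk.leaves {x y : ι → V} : ∀ {p : List ι} {s t : V}, Wk x y s p t → ∀ U : Finset V,
    s ∈ U → t ∉ U → ∃ i ∈ p, x i ∈ U ∧ y i ∉ U
  | [], s, t, h, U, hs, ht => by
    have : s = t := h
    subst this
    exact absurd hs ht
  | i :: p, s, t, h, U, hs, ht => by
    by_cases hy : y i ∈ U
    · obtain ⟨j, hj, h1, h2⟩ := Wk.leaves h.2 U hy ht
      exact ⟨j, List.mem_cons_of_mem _ hj, h1, h2⟩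
    · exact ⟨i, by simp, by rw [h.1]; exact hs, hy⟩

/-- Reachability versus cuts. -/
theorem exists_path {S : Finset ι} {x y : ι → V} {s t : V}
    (h : ∀ U : Finset V, s ∈ U → t ∉ U → 0 < cut S x y U) :
    ∃ p, (∀ i ∈ p, i ∈ S) ∧ Wk x y s p t ∧ (s :: p.map y).Nodup := by
  classical
  suffices hw : ∃ p, (∀ i ∈ p, i ∈ S) ∧ Wk x y s p t by
    obtain ⟨p, h1, h2⟩ := hw
    obtain ⟨q, h3, h4, h5⟩ := h2.shorten
    exact ⟨q, fun i hi => h1 i (h3 i hi), h4, h5⟩
  let R : Finset V := (insert s (S.image y)).filter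
    (fun w => ∃ p, (∀ i ∈ p, i ∈ S) ∧ Wk x y s p w)
  by_contra hcon
  have hs : s ∈ R := by
    simp only [R, mem_filter, mem_insert, true_or, true_and]
    exact ⟨[], by simp, rfl⟩
  have ht : t ∉ R := by
    intro ht
    exact hcon (mem_filter.1 ht).2
  obtain ⟨i, hi, h1, h2⟩ := (cut_pos_iff S x y R).1 (h R hs ht)
  apply h2
  obtain ⟨p, hp1, hp2⟩ := (mem_filter.1 h1).2
  rw [mem_filter]
  refine ⟨mem_insert.2 (Or.inr (mem_image_of_mem _ hi)), p ++ [i], ?_, ?_⟩
  · intro j hj
    rcases List.mem_append.1 hj with hj | hj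
    · exact hp1 j hj
    · rw [List.mem_singleton.1 hj]; exact hi
  · exact hp2.append ⟨rfl, rfl⟩

/-- Membership indicator. -/
def ind' (w : V) (U : Finset V) : ℤ := if w ∈ U then 1 else 0

/-- Balance of a walk. -/
theorem Wk.balance {x y : ι → V} : ∀ {p : List ι} {s t : V}, Wk x y s p t → ∀ U : Finset V,
    (p.map (fun i => ind' (x i) U - ind' (y i) U)).sum = ind' s U - ind' t U
  | [], s, t, h, U => by
    have : s = t := h
    subst this
    simp
  | i :: p, s, t, h, U => by
    rw [List.map_cons, List.sum_cons, Wk.balance h.2 U, h.1]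
    ring

theorem Wk.balance' [DecidableEq ι] {x y : ι → V} {p : List ι} {s t : V} (h : Wk x y s p t)
    (hn : (s :: p.map y).Nodup) (U : Finset V) :
    ∑ i ∈ p.toFinset, (ind' (x i) U - ind' (y i) U) = ind' s U - ind' t U := by
  rw [List.sum_toFinset _ (List.Nodup.of_map _ (List.nodup_cons.1 hn).2)]
  exact h.balance U

theorem mu_eq_ind (E : Finset ι) (u v : ι → V) (U : Finset V) :
    mu E u v U = ∑ i ∈ E, (ind' (u i) U - ind' (v i) U) := mu_eq_sum E u v U

/-- Menger's theorem for two arc-disjoint paths. -/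
theorem exists_two_paths [DecidableEq ι] {S : Finset ι} {x y : ι → V} {s t : V}
    (h : ∀ U : Finset V, s ∈ U → t ∉ U → 2 ≤ cut S x y U) :
    ∃ p q : List ι, (∀ i ∈ p, i ∈ S) ∧ Wk x y s p t ∧ (s :: p.map y).Nodup ∧
      (∀ i ∈ q, i ∈ S) ∧ Wk x y s q t ∧ (s :: q.map y).Nodup ∧ ∀ i ∈ p, i ∉ q := by
  by_cases hst : s = t
  · subst hst
    exact ⟨[], [], by simp, rfl, by simp, by simp, rfl, by simp, by simp⟩
  obtain ⟨p, hp1, hp2, hp3⟩ := exists_path (S := S) (x := x) (y := y) (s := s) (t := t)
    (fun U hs ht => by have := h U hs ht; omega)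
  -- residual graph
  let x' : ι → V := fun i => if i ∈ p then y i else x i
  let y' : ι → V := fun i => if i ∈ p then x i else y i
  have hbal := hp2.balance' hp3
  have hpS : p.toFinset ⊆ S := fun i hi => hp1 i (List.mem_toFinset.1 hi)
  obtain ⟨q, hq1, hq2, hq3⟩ := exists_path (S := S) (x := x') (y := y') (s := s) (t := t)
    (fun U hs ht => by
      by_contra hcon
      have h0 : cut S x' y' U = 0 := by
        have := cut_nonneg S x' y' U
        omega
      rw [cut_eq_zero_iff] at h0
      have h1 := h U hs ht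
      -- arcs of `S` leaving `U` are in `p`
      have h2 : cut S x y U = cut p.toFinset x y U := by
        unfold cut
        symm
        apply sum_subset hpS
        intro i hi hip
        rw [List.mem_toFinset] at hip
        have := h0 i hi
        simp only [x', y', hip, if_false] at this
        rw [if_neg]
        rintro ⟨h3, h4⟩
        exact h4 (this h3)
      have h3 : cut p.toFinset y x U = 0 := by
        rw [cut_eq_zero_iff]
        intro i hi hyi
        have hip := List.mem_toFinset.1 hi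
        have := h0 i (hpS hi)
        simp only [x', y', hip, if_true] at this
        exact this hyi
      have h4 := hbal U
      rw [← mu_eq_ind] at h4
      unfold mu at h4
      have h5 : ind' s U = 1 := by simp [ind', hs]
      have h6 : ind' t U = 0 := by simp [ind', ht]
      omega)
  have hbalq := hq2.balance' hq3
  have hqS : q.toFinset ⊆ S := fun i hi => hq1 i (List.mem_toFinset.1 hi)
  let F : Finset ι := (p.toFinset \ q.toFinset) ∪ (q.toFinset \ p.toFinset)
  have hFS : F ⊆ S := union_subset (sdiff_subset.trans hpS) (sdiff_subset.trans hqS)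
  have hF : ∀ U, mu F x y U = 2 * (ind' s U - ind' t U) := by
    intro U
    rw [mu_eq_ind, sum_union (by
      rw [Finset.disjoint_left]
      intro i hi hi'
      exact (mem_sdiff.1 hi).2 (mem_sdiff.1 hi').1)]
    have e1 := hbal U
    have e2 := hbalq U
    rw [← Finset.sum_sdiff (inter_subset_left : p.toFinset ∩ q.toFinset ⊆ p.toFinset),
      sdiff_inter_self_left] at e1
    rw [← Finset.sum_sdiff (inter_subset_right : p.toFinset ∩ q.toFinset ⊆ q.toFinset),
      sdiff_inter_self_right] at e2
    have e3 : ∑ i ∈ q.toFinset \ p.toFinset, (ind' (x' i) U - ind' (y' i) U) =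
        ∑ i ∈ q.toFinset \ p.toFinset, (ind' (x i) U - ind' (y i) U) := by
      apply sum_congr rfl
      intro i hi
      have : i ∉ p := fun h => (mem_sdiff.1 hi).2 (List.mem_toFinset.2 h)
      simp [x', y', this]
    have e4 : ∑ i ∈ p.toFinset ∩ q.toFinset, (ind' (x' i) U - ind' (y' i) U) =
        - ∑ i ∈ p.toFinset ∩ q.toFinset, (ind' (x i) U - ind' (y i) U) := by
      rw [← sum_neg_distrib]
      apply sum_congr rfl
      intro i hi
      have : i ∈ p := List.mem_toFinset.1 (mem_inter.1 hi).1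
      simp [x', y', this]
    rw [e3, e4] at e2
    linarith
  obtain ⟨a, ha1, ha2, ha3⟩ := exists_path (S := F) (x := x) (y := y) (s := s) (t := t)
    (fun U hs ht => by
      have h4 := hF U
      have h5 : ind' s U = 1 := by simp [ind', hs]
      have h6 : ind' t U = 0 := by simp [ind', ht]
      have h7 := cut_nonneg F y x U
      unfold mu at h4
      omega)
  have haF : a.toFinset ⊆ F := fun i hi => ha1 i (List.mem_toFinset.1 hi)
  have hbala := ha2.balance' ha3
  obtain ⟨b, hb1, hb2, hb3⟩ := exists_path (S := F \ a.toFinset) (x := x) (y := y) (s := s)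
    (t := t) (fun U hs ht => by
      have h4 := hF U
      rw [mu_eq_ind, ← Finset.sum_sdiff haF, hbala U, ← mu_eq_ind] at h4
      have h5 : ind' s U = 1 := by simp [ind', hs]
      have h6 : ind' t U = 0 := by simp [ind', ht]
      have h7 := cut_nonneg (F \ a.toFinset) y x U
      unfold mu at h4
      omega)
  refine ⟨a, b, fun i hi => hFS (ha1 i hi), ha2, ha3,
    fun i hi => hFS (mem_sdiff.1 (hb1 i hi)).1, hb2, hb3, ?_⟩
  intro i hi hib
  exact (mem_sdiff.1 (hb1 i hib)).2 (List.mem_toFinset.2 hi)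

end Pool.Agent.MP_5d9c5f
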