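import Pool.Agent.Lib.MP_5d9c5f_lc.Correct

/-!
# The algorithm runs in polynomial time
-/

namespace Pool.Agent.MP_5d9c5f

open Pool.Agent.PolyTime Function

universe u

variable {α : Type u} [Rep α]

theorem PT.vtxEq {f g : α → Vtx} (hf : PT f) (hg : PT g) : PT (fun a => decide (f a = g a)) :=
  PT.eqOfInj InjRep.inj hf hg

theorem PT.memB {w : α → Vtx} {R : α → List Vtx} (hw : PT w) (hR : PT R) :
    PT (fun a => memB (w a) (R a)) :=
  PT.any (g := fun a x => decide (x = w a)) hR (PT.vtxEq PT.id.snd (hw.comp PT.id.fst))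

theorem PT.stepR {D : α → List (Vtx × Vtx)} {W R : α → List Vtx} (hD : PT D) (hW : PT W)
    (hR : PT R) : PT (fun a => stepR (D a) (W a) (R a)) := by
  refine PT.filter (g := fun a w => MP_5d9c5f.memB w (R a) ||
    (D a).any (fun b => decide (b.2 = w) && MP_5d9c5f.memB b.1 (R a))) hW ?_
  refine PT.or (PT.memB PT.id.snd (hR.comp PT.id.fst)) ?_
  refine PT.any (l := fun p : α × Vtx => D p.1)
    (g := fun p b => decide (b.2 = p.2) && MP_5d9c5f.memB b.1 (R p.1)) (hD.comp PT.id.fst) ?_
  refine PT.and (PT.vtxEq PT.id.snd.snd PT.id.fst.snd) ?_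
  exact PT.memB PT.id.snd.fst (hR.comp PT.id.fst.fst)

theorem PT.cand {D : α → List (Vtx × Vtx)} {s : α → Vtx} (hD : PT D) (hs : PT s) :
    PT (fun a => cand (D a) (s a)) :=
  PT.cons hs (PT.map (g := fun _ b => b.2) hD PT.id.snd.snd)

theorem sz_foldl_stepR (D : List (Vtx × Vtx)) (W : List Vtx) (s : Vtx) (l : List Vtx) :
    sz (l.foldl (fun R _ => stepR D W R) [s]) ≤ sz W + sz [s] := by
  rw [List.foldl_const]
  cases l.length with
  | zero => simp only [iterate_zero, id_eq]; omega
  | succ n =>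
    rw [iterate_succ_apply']
    have := sz_sublist (List.filter_sublist (l := W) (p := fun w => memB w
      ((MP_5d9c5f.stepR D W)^[n] [s]) || D.any (fun a => decide (a.2 = w) && memB a.1
      ((MP_5d9c5f.stepR D W)^[n] [s]))))
    unfold stepR at this ⊢
    omega

theorem PT.reachList {D : α → List (Vtx × Vtx)} {s : α → Vtx} (hD : PT D) (hs : PT s) :
    PT (fun a => reachList (D a) (s a)) := by
  have h1 := PT.cand hD hs
  have h2 : PT (fun a => [s a]) := PT.cons hs (PT.const [])
  refine PT.foldl (l := fun a => MP_5d9c5f.cand (D a) (s a)) (f := fun a => [s a])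
    (g := fun a R _ => MP_5d9c5f.stepR (D a) (MP_5d9c5f.cand (D a) (s a)) R) h1 h2 ?_
    (B := fun a => sz (MP_5d9c5f.cand (D a) (s a)) + sz [s a])
    (h1.bdd.add h2.bdd) ?_
  · exact PT.stepR (hD.comp PT.id.fst) (h1.comp PT.id.fst) PT.id.snd.fst
  · intro a l' _
    exact sz_foldl_stepR _ _ _ _

theorem PT.reach {D : α → List (Vtx × Vtx)} {s t : α → Vtx} (hD : PT D) (hs : PT s)
    (ht : PT t) : PT (fun a => reach (D a) (s a) (t a)) :=
  PT.memB ht (PT.reachList hD hs)

theorem PT.arcsOf {L : α → List Item} (hL : PT L) : PT (fun a => arcsOf (L a)) := by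
  refine PT.flatMap (g := fun _ b => if b.2 then [b.1, (b.1.2, b.1.1)] else [b.1]) hL ?_
  refine PT.ite PT.id.snd.snd ?_ ?_
  · exact PT.cons PT.id.snd.fst (PT.cons (PT.pair PT.id.snd.fst.snd PT.id.snd.fst.fst)
      (PT.const []))
  · exact PT.cons PT.id.snd.fst (PT.const [])

theorem PT.two {L : α → List Item} {s t : α → Vtx} (hL : PT L) (hs : PT s) (ht : PT t) :
    PT (fun a => two (L a) (s a) (t a)) := by
  refine PT.and (PT.reach (PT.arcsOf hL) hs ht) ?_
  refine PT.all (l := fun a => List.range (L a).length) (g := fun a i =>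
    MP_5d9c5f.reach (MP_5d9c5f.arcsOf ((L a).take i ++ (L a).drop (i + 1))) (s a) (t a))
    (PT.range (PT.length hL)) ?_
  have hL' : PT (fun p : α × ℕ => L p.1) := hL.comp PT.id.fst
  exact PT.reach (PT.arcsOf (PT.append (PT.take hL' PT.id.snd)
    (PT.drop hL' (PT.succ PT.id.snd)))) (hs.comp PT.id.fst) (ht.comp PT.id.fst)

theorem PT.relax {q : α → Tm} {L : α → List Item} (hq : PT q) (hL : PT L) :
    PT (fun a => relax (q a) (L a)) :=
  PT.and (PT.reach (PT.arcsOf hL) hq.fst.fst hq.fst.snd) (PT.two hL hq.snd.fst hq.snd.snd)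

theorem PT.turn {r : α → Bool} {b : α → Item} (hr : PT r) (hb : PT b) :
    PT (fun a => turn (r a) (b a)) := by
  refine PT.ite hb.snd (PT.ite hr ?_ ?_) hb
  · exact PT.pair hb.fst (PT.const false)
  · exact PT.pair (PT.pair hb.fst.snd hb.fst.fst) (PT.const false)

theorem PT.orientAt {L : α → List Item} {i : α → ℕ} {r : α → Bool} (hL : PT L) (hi : PT i)
    (hr : PT r) : PT (fun a => orientAt (L a) (i a) (r a)) := by
  refine PT.append (PT.take hL hi) (PT.append ?_ (PT.drop hL (PT.succ hi)))
  exact PT.map (g := fun a b => MP_5d9c5f.turn (r a) b) (PT.take (PT.drop hL hi) (PT.const 1))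
    (PT.turn (hr.comp PT.id.fst) PT.id.snd)

theorem PT.prop1 {q : α → Tm} {L : α → List Item} {i : α → ℕ} (hq : PT q) (hL : PT L)
    (hi : PT i) : PT (fun a => prop1 (q a) (L a) (i a)) := by
  have h1 := PT.orientAt hL hi (PT.const true)
  have h2 := PT.orientAt hL hi (PT.const false)
  exact PT.ite (PT.relax hq h1) (PT.ite (PT.relax hq h2) hL h1) h2

/-! ### Sizes -/

theorem sz_turn_le (r : Bool) (a : Item) : sz (turn r a) ≤ sz a := by
  obtain ⟨⟨u, v⟩, b⟩ := a
  unfold turn
  cases b
  · simp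
  · cases r
    · simp only [sz_pair, sz_true, sz_false, if_true]
      simp only [Bool.false_eq_true, if_false, sz_pair, sz_false]
      omega
    · simp only [sz_pair, sz_true, sz_false, if_true]
      omega

theorem sz_modify_le (f : Item → Item) (hf : ∀ a, sz (f a) ≤ sz a) : ∀ (L : List Item) (i : ℕ),
    sz (L.modify i f) ≤ sz L
  | [], i => by
    cases i <;> simp
  | a :: L, 0 => by
    rw [List.modify_zero_cons, sz_cons, sz_cons]
    have := hf a
    omega
  | a :: L, i + 1 => by
    rw [List.modify_succ_cons, sz_cons, sz_cons]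
    have := sz_modify_le f hf L i
    omega

theorem sz_orientAt_le (L : List Item) (i : ℕ) (r : Bool) : sz (orientAt L i r) ≤ sz L := by
  rw [orientAt_eq_modify]
  exact sz_modify_le _ (sz_turn_le r) L i

theorem sz_prop1_le (q : Tm) (L : List Item) (i : ℕ) : sz (prop1 q L i) ≤ sz L := by
  unfold prop1
  split_ifs
  · exact le_rfl
  · exact sz_orientAt_le _ _ _
  · exact sz_orientAt_le _ _ _

theorem sz_foldl_le {β : Type*} (f : List Item → β → List Item)
    (hf : ∀ L b, sz (f L b) ≤ sz L) (l : List β) : ∀ L, sz (l.foldl f L) ≤ sz L := by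
  induction l with
  | nil => intro L; exact le_rfl
  | cons b l ih => intro L; exact (ih _).trans (hf L b)

theorem sz_pass_le (q : Tm) (L : List Item) : sz (pass q L) ≤ sz L :=
  sz_foldl_le _ (sz_prop1_le q) _ _

theorem sz_fixStep_le (q : Tm) (L : List Item) (i : ℕ) : sz (fixStep q L i) ≤ sz L := by
  unfold fixStep
  split_ifs <;> exact sz_orientAt_le _ _ _

theorem PT.pass {q : α → Tm} {L : α → List Item} (hq : PT q) (hL : PT L) :
    PT (fun a => pass (q a) (L a)) := by
  refine PT.foldl (l := fun a => List.range (L a).length) (f := L)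
    (g := fun a M i => MP_5d9c5f.prop1 (q a) M i) (PT.range (PT.length hL)) hL ?_
    (B := fun a => sz (L a)) hL.bdd ?_
  · exact PT.prop1 (hq.comp PT.id.fst) PT.id.snd.fst PT.id.snd.snd
  · intro a l' _
    exact sz_foldl_le _ (sz_prop1_le (q a)) _ _

theorem PT.closure {q : α → Tm} {L : α → List Item} (hq : PT q) (hL : PT L) :
    PT (fun a => closure (q a) (L a)) := by
  refine PT.foldl (l := L) (f := L) (g := fun a M _ => MP_5d9c5f.pass (q a) M) hL hL ?_
    (B := fun a => sz (L a)) hL.bdd ?_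
  · exact PT.pass (hq.comp PT.id.fst) PT.id.snd.fst
  · intro a l' _
    exact sz_foldl_le _ (fun M _ => sz_pass_le (q a) M) _ _

theorem PT.dec {q : α → Tm} {L : α → List Item} (hq : PT q) (hL : PT L) :
    PT (fun a => dec (q a) (L a)) :=
  PT.relax hq (PT.closure hq hL)

theorem PT.fixStep {q : α → Tm} {L : α → List Item} {i : α → ℕ} (hq : PT q) (hL : PT L)
    (hi : PT i) : PT (fun a => fixStep (q a) (L a) (i a)) := by
  have h1 := PT.orientAt hL hi (PT.const true)
  have h2 := PT.orientAt hL hi (PT.const false)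
  exact PT.ite (PT.dec hq h1) h1 h2

theorem PT.fixAll {q : α → Tm} {L : α → List Item} (hq : PT q) (hL : PT L) :
    PT (fun a => fixAll (q a) (L a)) := by
  refine PT.foldl (l := fun a => List.range (L a).length) (f := L)
    (g := fun a M i => MP_5d9c5f.fixStep (q a) M i) (PT.range (PT.length hL)) hL ?_
    (B := fun a => sz (L a)) hL.bdd ?_
  · exact PT.fixStep (hq.comp PT.id.fst) PT.id.snd.fst PT.id.snd.snd
  · intro a l' _
    exact sz_foldl_le _ (sz_fixStep_le (q a)) _ _

/-! ### Inputs -/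

theorem PT.tuple : PT (fun I : MixedInput => (I.arcs, I.edges, I.s₁, I.t₁, I.s₂, I.t₂)) :=
  Comp.id (x := fun I : MixedInput => toT (I.arcs, I.edges, I.s₁, I.t₁, I.s₂, I.t₂))

theorem PT.items : PT items := by
  refine PT.append (f := fun I : MixedInput => I.arcs.map (fun a => ((a, false) : Item)))
    (g := fun I : MixedInput => I.edges.map (fun a => ((a, true) : Item))) ?_ ?_
  · exact PT.map (l := fun I : MixedInput => I.arcs) (g := fun _ a => ((a, false) : Item))
      PT.tuple.fst (PT.pair PT.id.snd (PT.const false))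
  · exact PT.map (l := fun I : MixedInput => I.edges) (g := fun _ a => ((a, true) : Item))
      PT.tuple.snd.fst (PT.pair PT.id.snd (PT.const true))

theorem PT.terms : PT terms :=
  PT.pair (PT.pair PT.tuple.snd.snd.fst PT.tuple.snd.snd.snd.fst)
    (PT.pair PT.tuple.snd.snd.snd.snd.fst PT.tuple.snd.snd.snd.snd.snd)

theorem PT.decide' : PT decide' := PT.dec PT.terms PT.items

theorem PT.solve : PT solve := by
  refine PT.ite (PT.dec PT.terms PT.items) ?_ (PT.const none)
  refine PT.some ?_
  refine PT.map (l := fun I : MixedInput => (MP_5d9c5f.fixAll (MP_5d9c5f.terms I)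
    (MP_5d9c5f.items I)).drop I.arcs.length) (g := fun _ a => a.1) ?_ PT.id.snd.fst
  exact PT.drop (PT.fixAll PT.terms PT.items) (PT.length PT.tuple.fst)

end Pool.Agent.MP_5d9c5f
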