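import Pool.Agent.Lib.MP_5d9c5f_lc.Defs
import Pool.Agent.Lib.MP_5d9c5f_lc.Paths

/-!
# Reachability algorithm on lists of arcs
-/

namespace Pool.Agent.MP_5d9c5f

/-- Membership test. -/
def memB (w : Vtx) (R : List Vtx) : Bool := R.any (fun x => decide (x = w))

theorem memB_iff (w : Vtx) (R : List Vtx) : memB w R = true ↔ w ∈ R := by
  simp [memB]

/-- One round of the search. -/
def stepR (D : List (Vtx × Vtx)) (W R : List Vtx) : List Vtx :=
  W.filter (fun w => memB w R || D.any (fun a => decide (a.2 = w) && memB a.1 R))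

/-- Candidates for reachable vertices. -/
def cand (D : List (Vtx × Vtx)) (s : Vtx) : List Vtx := s :: D.map (fun a => a.2)

/-- The list of the vertices reachable from `s`. -/
def reachList (D : List (Vtx × Vtx)) (s : Vtx) : List Vtx :=
  (cand D s).foldl (fun R _ => stepR D (cand D s) R) [s]

/-- Reachability test. -/
def reach (D : List (Vtx × Vtx)) (s t : Vtx) : Bool := memB t (reachList D s)

theorem mem_stepR (D : List (Vtx × Vtx)) (W R : List Vtx) (w : Vtx) :
    w ∈ stepR D W R ↔ w ∈ W ∧ (w ∈ R ∨ ∃ a ∈ D, a.2 = w ∧ a.1 ∈ R) := by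
  simp only [stepR, List.mem_filter, Bool.or_eq_true, memB_iff, List.any_eq_true,
    Bool.and_eq_true, decide_eq_true_eq]

theorem reachList_eq (D : List (Vtx × Vtx)) (s : Vtx) :
    reachList D s = (stepR D (cand D s))^[(cand D s).length] [s] := by
  unfold reachList
  rw [List.foldl_const]

/-- Iterates of the search. -/
def iterR (D : List (Vtx × Vtx)) (s : Vtx) (k : ℕ) : List Vtx :=
  (stepR D (cand D s))^[k] [s]

theorem iterR_succ (D : List (Vtx × Vtx)) (s : Vtx) (k : ℕ) :
    iterR D s (k + 1) = stepR D (cand D s) (iterR D s k) := by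
  unfold iterR
  rw [Function.iterate_succ_apply']

theorem iterR_sub (D : List (Vtx × Vtx)) (s : Vtx) (k : ℕ) :
    ∀ w ∈ iterR D s k, w ∈ cand D s := by
  cases k with
  | zero =>
    intro w hw
    simp only [iterR, Function.iterate_zero, id_eq, List.mem_singleton] at hw
    subst hw
    simp [cand]
  | succ k =>
    intro w hw
    rw [iterR_succ, mem_stepR] at hw
    exact hw.1

theorem mem_iterR_succ (D : List (Vtx × Vtx)) (s : Vtx) (k : ℕ) (w : Vtx) :
    w ∈ iterR D s (k + 1) ↔ w ∈ iterR D s k ∨ ∃ a ∈ D, a.2 = w ∧ a.1 ∈ iterR D s k := by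
  rw [iterR_succ, mem_stepR]
  constructor
  · exact fun h => h.2
  · intro h
    refine ⟨?_, h⟩
    rcases h with h | ⟨a, ha, rfl, _⟩
    · exact iterR_sub D s k w h
    · exact List.mem_cons_of_mem _ (List.mem_map.2 ⟨a, ha, rfl⟩)

theorem start_mem_iterR (D : List (Vtx × Vtx)) (s : Vtx) (k : ℕ) : s ∈ iterR D s k := by
  induction k with
  | zero => simp [iterR]
  | succ k ih => rw [mem_iterR_succ]; exact Or.inl ih

theorem iterR_sound (D : List (Vtx × Vtx)) (s : Vtx) (U : Finset Vtx) (hs : s ∈ U)
    (hU : ∀ a ∈ D, a.1 ∈ U → a.2 ∈ U) (k : ℕ) : ∀ w ∈ iterR D s k, w ∈ U := by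
  induction k with
  | zero =>
    intro w hw
    simp only [iterR, Function.iterate_zero, id_eq, List.mem_singleton] at hw
    rw [hw]; exact hs
  | succ k ih =>
    intro w hw
    rw [mem_iterR_succ] at hw
    rcases hw with h | ⟨a, ha, rfl, h⟩
    · exact ih w h
    · exact hU a ha (ih _ h)

theorem iterR_stable (D : List (Vtx × Vtx)) (s : Vtx) (k : ℕ) :
    (∀ w, w ∈ iterR D s (k + 1) → w ∈ iterR D s k) ∨ k < (iterR D s k).toFinset.card := by
  induction k with
  | zero =>
    right
    rw [Finset.card_pos]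
    exact ⟨s, List.mem_toFinset.2 (start_mem_iterR D s 0)⟩
  | succ k ih =>
    by_cases hst : ∀ w, w ∈ iterR D s (k + 1) → w ∈ iterR D s k
    · left
      intro w hw
      rw [mem_iterR_succ] at hw
      rcases hw with h | ⟨a, ha, rfl, h⟩
      · exact h
      · rw [mem_iterR_succ]
        exact Or.inr ⟨a, ha, rfl, hst _ h⟩
    · right
      have h1 := ih.resolve_left hst
      push Not at hst
      obtain ⟨w, hw1, hw2⟩ := hst
      have h2 : (iterR D s k).toFinset ⊂ (iterR D s (k + 1)).toFinset := by
        rw [Finset.ssubset_iff_of_subset]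
        · exact ⟨w, List.mem_toFinset.2 hw1, fun h => hw2 (List.mem_toFinset.1 h)⟩
        · intro z hz
          rw [List.mem_toFinset] at hz ⊢
          rw [mem_iterR_succ]
          exact Or.inl hz
      have h3 := Finset.card_lt_card h2
      omega

/-- Correctness of the reachability test. -/
theorem reach_iff (D : List (Vtx × Vtx)) (s t : Vtx) :
    reach D s t = true ↔ ∀ U : Finset Vtx, s ∈ U → t ∉ U → ∃ a ∈ D, a.1 ∈ U ∧ a.2 ∉ U := by
  unfold reach
  rw [memB_iff, reachList_eq]
  constructor
  · intro h U hs ht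
    by_contra hcon
    push Not at hcon
    exact ht (iterR_sound D s U hs hcon _ t h)
  · intro h
    by_contra hcon
    set n := (cand D s).length with hn
    have hstab : ∀ w, w ∈ iterR D s (n + 1) → w ∈ iterR D s n := by
      refine (iterR_stable D s n).resolve_right ?_
      intro hlt
      have h1 : (iterR D s n).toFinset ⊆ (cand D s).toFinset := by
        intro w hw
        rw [List.mem_toFinset] at hw ⊢
        exact iterR_sub D s n w hw
      have h2 := Finset.card_le_card h1
      have h3 := List.toFinset_card_le (cand D s)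
      omega
    obtain ⟨a, ha, h1, h2⟩ := h (iterR D s n).toFinset
      (List.mem_toFinset.2 (start_mem_iterR D s n)) (fun h => hcon (List.mem_toFinset.1 h))
    rw [List.mem_toFinset] at h1 h2
    exact h2 (hstab _ ((mem_iterR_succ D s n a.2).2 (Or.inr ⟨a, ha, rfl, h1⟩)))

end Pool.Agent.MP_5d9c5f
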